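import Pool.Agent.V5helper51.CM.Win
import Pool.Agent.H373R2.T7.BilE
import Pool.Agent.H373R2.T7.BilLam

/-!
# Project MW: short windows at ALL frequencies

`Wn G N Y γ` is the sum over all `m` of `|∑_{m-Y < n ≤ m, n ≤ N} G(n) e(γ n)|²`. Aim (`S_MWM`, `S_MWL`): for `G = μ` and
for `G = Λ - Λ_z` it is at most `N Y² / log^U N` for ALL real `γ`, if `N^(1/3) log^C N ≤ Y ≤ N`. Then (`S_FAM`) the
correlations with an ARBITRARY function along every family of shifts of nearly minimal additive energy inside an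
interval of the length `Y` are small.

Throughout `L = log N`. All implied constants are free: every statement may be proved with larger constants (tell the
author of this file if an exponent of a logarithm has to be changed).
-/

set_option autoImplicit false

namespace Pool.Agent.V5helper51.MW

open Finset
open Pool.Agent.H807R2.Dav (ee)
open Pool.Agent.V5helper51.CM (Sf Bw)
open Pool.Agent.R460.SQ (DZ)
open Pool.Agent.H373R2.T7 (lamz Vz pz energy exI lamI lamzI)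

/-- the window norm -/
noncomputable def Wn (G : ℕ → ℂ) (N Y : ℕ) (γ : ℝ) : ℝ := ∑ m ∈ range (N + Y), ‖Bw G N Y γ m‖ ^ 2

/-- `γ` lies on the minor arcs: `‖q γ‖ > Q / Y` for all `q ≤ Q` -/
def Mnr (Q : ℝ) (Y : ℕ) (γ : ℝ) : Prop := ∀ q : ℕ, 1 ≤ q → (q : ℝ) ≤ Q → ∀ a : ℤ, Q < Y * |q * γ - a|

/-- the Dirichlet convolution -/
noncomputable def cv (α β : ℕ → ℂ) (n : ℕ) : ℂ := ∑ d ∈ n.divisors, α d * β (n / d)

/-- the Möbius function -/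
noncomputable def mu (n : ℕ) : ℂ := ((ArithmeticFunction.moebius n : ℤ) : ℂ)

/-! ### elementary facts (job ELM) -/

/-- **ELM1**: `Wn G ≤ Y² ∑ |G|²`. Proof: Cauchy, `|Bw m|² ≤ Y ∑_{l in the window} |G l|²`, and every `l` lies in at most
`Y` windows. -/
def S_ELM1 : Prop := ∀ (G : ℕ → ℂ) (N Y : ℕ) (γ : ℝ), Wn G N Y γ ≤ (Y : ℝ) ^ 2 * ∑ l ∈ Icc 1 N, ‖G l‖ ^ 2

/-- **ELM2**: sums of `k` functions (Cauchy). -/
def S_ELM2 : Prop := ∀ (k : ℕ) (G : Fin k → ℕ → ℂ) (N Y : ℕ) (γ : ℝ),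
  Wn (fun n => ∑ i, G i n) N Y γ ≤ k * ∑ i, Wn (G i) N Y γ

/-- **ELM3**: `Wn` depends on the values in `[1, N]` only. -/
def S_ELM3 : Prop := ∀ (G G' : ℕ → ℂ) (N Y : ℕ) (γ : ℝ), (∀ n ∈ Icc 1 N, G n = G' n) → Wn G N Y γ = Wn G' N Y γ

/-- **SUB**: from windows of the length `Y₁` at `r` to windows of the length `Y ≥ Y₁` at `γ`. Proof. Let `k = Y / Y₁`
(integer part). The window `(m - Y, m]` is the union of the windows `(m - i Y₁ - Y₁, m - i Y₁]`, `i < k`, and of a rest of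
less than `Y₁` numbers (the windows with `m - i Y₁ < 0`, truncated subtraction, need care: they are empty). In the
`i`-th one, with `m' = m - i Y₁`, `e(γ l) = e(m' (γ - r)) e(r l) e((l - m') (γ - r))` and
`|e((l - m') (γ - r)) - 1| ≤ 2 π Y₁ |γ - r|`. So `|Bw_Y(γ, m)| ≤ ∑_{i<k} |Bw_{Y₁}(r, m - i Y₁)| + k Y₁ A 2 π Y₁ |γ - r| + Y₁ A`,
now square (Cauchy with three terms, then over `i`), and sum over `m`. -/
def S_SUB : Prop := ∀ (G : ℕ → ℂ) (N Y Y₁ : ℕ) (γ r A : ℝ), 1 ≤ Y₁ → Y₁ ≤ Y → Y ≤ N → (∀ l ∈ Icc 1 N, ‖G l‖ ≤ A) →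
  Wn G N Y γ ≤ 3 * ((Y : ℝ) / Y₁) ^ 2 * Wn G N Y₁ r +
    300 * N * (Y : ℝ) ^ 2 * A ^ 2 * ((Y₁ * |γ - r|) ^ 2 + ((Y₁ : ℝ) / Y) ^ 2)

/-- **PAR**: Parseval. With `M = N + Y` and `F t = ∑_{j<Y} e(j t / M)`:
`M Wn = ∑_{t<M} |Sf(γ + t/M)|² |F t|²` (`CM.window_id` and Parseval on `ℤ / M`, see e.g. `TT_mean` in `R460`), and
`∑_{t<M} |F t|² = M Y`. -/
def S_PAR : Prop := ∀ (G : ℕ → ℂ) (N Y : ℕ) (γ : ℝ), 1 ≤ Y → 1 ≤ N →
  ((N + Y : ℕ) : ℝ) * Wn G N Y γ = ∑ t ∈ range (N + Y), ‖Sf G N (γ + (t : ℝ) / (N + Y : ℕ))‖ ^ 2 *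
    ‖∑ j ∈ range Y, ee (j * ((t : ℝ) / (N + Y : ℕ)))‖ ^ 2 ∧
  ∑ t ∈ range (N + Y), ‖∑ j ∈ range Y, ee (j * ((t : ℝ) / (N + Y : ℕ)))‖ ^ 2 = ((N + Y : ℕ) : ℝ) * Y

/-! ### type II (job T2) -/

/-- **T2**: type II sums in windows. `α` is supported on `[M, 2 M)`, `Q ≤ M ≤ Y / Q`.
Proof. (1) Dirichlet's approximation theorem with the parameter `Y / Q`: there are `1 ≤ q ≤ Y / Q` and `a` coprime with
`|q γ - a| ≤ Q / Y` (care with the integer part of `Y/Q`; a factor 2 does not matter, use `Mnr` and `Q ≥ 1`; if constants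
disturb, you may assume `Mnr (4 * Q)` instead, tell me). By `Mnr`, `q > Q`. So `Q < q ≤ Y / Q` and `|γ - a / q| ≤ 1 / q²`
up to a constant.
(2) The classical bound `∑_{1 ≤ r ≤ R} min(M, 1 / ‖γ r‖) ≤ C (R / q + 1) (M + q log q)` with `R = Y / M`; this is at most
`C' Y L / Q`, since `Y / q ≤ Y / Q`, `M ≤ Y / Q`, `R log q ≤ Y L / Q` (`M ≥ Q`), `q log q ≤ Y L / Q`. (There are such
lemmas in the libraries of the minor arcs: `R460/SB/Min.lean`, `H807R2/Dav`, `W93`.)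
(3) `Bw (cv α β) N Y γ x = ∑_m α(m) ∑_k β(k) e(γ m k)` over `m k ≤ N`, `x - Y < m k ≤ x`. By Cauchy over `m`
`∑_x |.|² ≤ (∑ |α|²) ∑_{M ≤ m < 2M} ∑_x |∑_k β(k) e(γ m k) 1(m k ≤ N, x - Y < m k ≤ x)|²`. Open the square: for `k, k' ≤ N / M`
the weight is `∑_x 1 = max(0, Y - m |k - k'|)`, and the conditions `m k, m k' ≤ N` restrict `m` to an interval; so the sum
over `m` is a sum of `e(γ m (k - k'))` over an interval with a monotone weight in `[0, Y]`, thus at most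
`2 Y min(M, 1 / (2 ‖γ (k - k')‖))` for `k ≠ k'`, and at most `Y M` for `k = k'`, and it vanishes for `|k - k'| > Y / M`. With
`|β(k) β(k')| ≤ (|β(k)|² + |β(k')|²) / 2` the total is at most
`(∑ |α|²) (∑_{k ≤ N/M} |β(k)|²) (Y M + 4 Y ∑_{1 ≤ r ≤ Y/M} min(M, 1 / (2 ‖γ r‖)))`. -/
def S_T2 : Prop := ∃ C : ℝ, 1 ≤ C ∧ ∀ (N M Y : ℕ) (Q γ Sa Sb : ℝ) (α β : ℕ → ℂ), 2 ≤ N → 1 ≤ Q → Q ≤ M → (M : ℝ) * Q ≤ Y →
  Y ≤ N → Mnr Q Y γ → (∀ m, α m ≠ 0 → M ≤ m ∧ m < 2 * M) → ∑ m ∈ range (2 * M), ‖α m‖ ^ 2 ≤ Sa * M →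
  ∑ k ∈ Icc 1 (N / M), ‖β k‖ ^ 2 ≤ Sb * (N / M) → 0 ≤ Sb →
  Wn (cv α β) N Y γ ≤ C * Sa * Sb * (N * (Y : ℝ) ^ 2) * Real.log N / Q

/-! ### type I (job T1) -/

/-- **T1a**: the pointwise bound. Let `|θ| ≤ 1 / (4 D q)`, `1 ≤ q ≤ 4 D`, `(a, q) = 1`. Then
`∑_{d ≤ D} min(N / d, 1 / (2 ‖d β‖)) ≤ C L (N / (q (1 + N |θ|)) + D + q)` for `β = a / q + θ`. Proof: for `q ∤ d` one has
`‖d β‖ ≥ ‖d a / q‖ / 2`, and the sum of `1 / ‖d a / q‖` over `d ≤ D`, `q ∤ d`, is at most `C (D / q + 1) q log q`; for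
`d = q j` one has `‖d β‖ = q j |θ|`, and `∑_{j ≤ D/q} min(N / (q j), 1 / (2 q j |θ|)) ≤ (1/q) min(N, 1 / |θ|) (1 + L)`.
Hence, for `|α d| ≤ 1` supported on `[1, D]` and `w` monotone with values in `[0, 1]` on `[1, N]`, the exponential sum over
`cv α (w 1_{> V})` at `β` is at most `C L (N / (q (1 + N |θ|)) + D + q)` in absolute value (partial summation for the
inner sum, a geometric sum over an interval of length `≤ N / d`). (Here `min(x, 1 / 0) = x`; state it as you like.) -/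
def S_T1a : Prop := ∃ C : ℝ, 1 ≤ C ∧ ∀ (N D V q : ℕ) (a : ℤ) (θ : ℝ) (α : ℕ → ℂ) (w : ℕ → ℝ), 2 ≤ N → 1 ≤ D → D ≤ N →
  1 ≤ q → q ≤ 4 * D → IsCoprime a (q : ℤ) → |θ| * (4 * D * q) ≤ 1 → (∀ d, α d ≠ 0 → 1 ≤ d ∧ d ≤ D) → (∀ d, ‖α d‖ ≤ 1) →
  Monotone w → (∀ n, 0 ≤ w n) → w N ≤ 1 →
  ‖Sf (cv α (fun n => if V < n then (w n : ℂ) else 0)) N ((a : ℝ) / q + θ)‖ ≤
    C * Real.log N * (N / (q * (1 + N * |θ|)) + D)

/-- **T1**: type I sums in windows. Proof. `M = N + Y`. By `PAR`, `Wn = (1/M) ∑_{t<M} |Sf(γ + t/M)|² |F t|²`,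
`|F t| ≤ min(Y, 1 / (2 ‖t / M‖))`. For every `t` let (Dirichlet) `γ + t/M = a/q + θ`, `1 ≤ q ≤ 4 D`, `(a, q) = 1`,
`|θ| ≤ 1 / (4 D q)`. By `T1a` `|Sf|² ≤ 2 C² L² (N² / (q² (1 + N |θ|)²) + D²)`. The term `D²` contributes `≤ C L² D² Y`
(`∑ |F t|² = M Y`), which is `≤ C L² N Y² / Q` as `D² Q ≤ N Y`. For the other term sum over the fractions `a / q` (mod 1,
`q ≤ 4 D`) and over the `t < M` near `a / q - γ` modulo one: `t / M ≡ a / q - γ + θ_t`, the `θ_t` are spaced by `1 / M`,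
`M ≤ 2 N`. With `δ = ‖a/q - γ‖`: `|F t|² ≤ 4 min(Y, 1/δ)² (1 + Y |θ_t|)²`. Moreover
`∑_t (1 + Y |θ_t|)² / (1 + N |θ_t|)² ≤ C`: the `t` with `|θ_t| ≤ 1 / Y` give `≤ 4 ∑ (1 + N |θ_t|)^(-2) ≤ C`, each of the
others at most `4 Y² / N²`, and their number is at most `M / (2 D q) + 1 ≤ N + 1` (`Y² ≤ N`). So the main term is
`≤ C L² (1/M) ∑_{q ≤ 4D} (N²/q²) ∑_{a mod q} min(Y, 1 / ‖a/q - γ‖)²`
`≤ C L² N ∑_{q ≤ 4D} q^(-2) (2 min(Y, q / ‖q γ‖)² + C q²)` (the points `a/q - γ` mod 1 are spaced by `1/q`, the nearest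
one to `0` has the distance `‖q γ‖ / q`, the `j`-th next one at least `j / (2 q)`). Finally `q ≤ Q`: by `Mnr`
`q / ‖q γ‖ ≤ q Y / Q`, sum `≤ Q (Y/Q)²`; `q > Q`: `∑ Y² / q² ≤ 2 Y² / Q`; and `∑_{q ≤ 4D} C = 4 C D ≤ 4 C Y² / Q`. -/
def S_T1 : Prop := ∃ C : ℝ, 1 ≤ C ∧ ∀ (N D Y V : ℕ) (Q γ : ℝ) (α : ℕ → ℂ) (w : ℕ → ℝ), 2 ≤ N → 1 ≤ Q → 1 ≤ D → D ≤ N →
  1 ≤ Y → (D : ℝ) * Q ≤ (Y : ℝ) ^ 2 → (D : ℝ) ^ 2 * Q ≤ N * Y → Y ^ 2 ≤ N → Mnr Q Y γ →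
  (∀ d, α d ≠ 0 → 1 ≤ d ∧ d ≤ D) → (∀ d, ‖α d‖ ≤ 1) → Monotone w → (∀ n, 0 ≤ w n) → w N ≤ 1 →
  Wn (cv α (fun n => if V < n then (w n : ℂ) else 0)) N Y γ ≤ C * (1 + Real.log N) ^ 2 * (N * (Y : ℝ) ^ 2) / Q

/-! ### decomposition (job DEC) -/

/-- the pieces: `k` is their number; type I pieces `a i * (w i 1_{> z})` with `w i ∈ {1, log}`, and type II pieces
`α i * β i` with `α i` supported on `(P, z]` -/
structure Dec (g : ℕ → ℂ) (N z P : ℕ) where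
  k : ℕ
  hk : k ≤ 200
  a : Fin k → ℕ → ℂ
  lg : Fin k → Bool
  α : Fin k → ℕ → ℂ
  β : Fin k → ℕ → ℂ
  ha : ∀ i d, ‖a i d‖ ≤ 20 * (d.divisors.card : ℝ) ^ 5 * (1 + Real.log N)
  hα : ∀ i m, α i m ≠ 0 → P < m ∧ m ≤ z
  hα1 : ∀ i m, ‖α i m‖ ≤ 1 + Real.log N
  hβ : ∀ i l, ‖β i l‖ ≤ 20 * (l.divisors.card : ℝ) ^ 5 * (1 + Real.log N)
  eq : ∀ n : ℕ, P ^ 6 < n → n ≤ N → g n = ∑ i, (cv (a i) (fun n => if z < n then
    (if lg i then (Real.log n : ℂ) else 1) else 0) n + cv (α i) (β i) n)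

/-- **DEC**: decomposition of `μ` and `Λ`. Proof. Heath-Brown's identity with `k = 3` (`V5helper24.CR.hb3_all` with the
twist `g = 1`, `X = N`): for `n ≤ N ≤ z³` the value is a linear combination (coefficients `≤ 3`) of the `TS F N n`
(sums over the factorisations `n = v 0 ⋯ v (r-1)`, `r ≤ 6`), with factors `μ 1_{≤ z}`, `1`, `log` (`HBL`, `HBM`). Fix one
`TS`. Call the factors `1`, `log` smooth. Split the tuples `v`: (I) some smooth variable is `> z`; let `i` be the first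
one: then `n = d v_i`, `d` the product of the others, the coefficient `a(d)` is the sum over the factorisations of `d`
with the smooth variables before `i` `≤ z`; `|a(d)| ≤ τ(d)^(r-1) (1 + log N)` for `d ≤ N` (and put `a(d) = 0` for
`d > N`). (II) all smooth variables are `≤ z`; as `n > P^6 ≥ P^r` some variable is `> P`; let `i` be the first one: `α`
is the factor `i` restricted to `(P, z]`, and `β` the sum over the factorisations of `n / v_i` with the variables before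
`i` `≤ P` and the smooth ones `≤ z`. The number of the pieces is at most `2 * 6 * 6`. -/
def S_DEC : Prop := ∀ N z P : ℕ, 2 ≤ N → N ≤ z ^ 3 → 1 ≤ P → P ≤ z →
  Nonempty (Dec mu N z P) ∧ Nonempty (Dec (fun n => (ArithmeticFunction.vonMangoldt n : ℂ)) N z P)

/-! ### minor arcs -/

/-- **MIN0**: the assembly for a function with a decomposition (from `T1`, `T2`, `DEC`, `ELM`, divisor moments). For every
`U` there is `C` such that for large `N`, `N^(1/3) L^C ≤ Y`, `Y² ≤ N`, all functions `g` with `|g n| ≤ L` and `Dec g N z P`,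
`z = ⌈N^(1/3)⌉`, `P` about `L^C`, and `Q = P`: `Wn g ≤ N Y² / L^U` if `Mnr P Y γ`. Proof: the `n ≤ P^6` by `ELM1`. Type I
pieces: `D = N / z ≤ N^(2/3)`; split `a i` according to whether `τ(d)^5 ≤ L^K` or not; first part by `T1` (divide by the
maximum `20 L^K (1 + L)`; if `lg`, `w n = log n / (1 + L)` for `n ≥ 1`), conditions `D Q ≤ N^(2/3) Q ≤ Y²`,
`D² Q ≤ N^(4/3) Q ≤ N Y`; second part by `ELM1`: `|cv| ≤ C τ(n)^7 (1+L)² 1(τ(n)^5 > L^K) ≤ C τ(n)^12 (1+L)² / L^K`, with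
moments of the divisor function (`S_DV` or `H398R2.BA1`). Type II pieces: dyadic blocks of `α`, `M = 2^j`, `P ≤ ... ≤ z`
(the first block `P < m < 2^j` as well: blocks `[M, 2M)` with `M = P 2^j`), `T2` with `Sa = (1+L)²`,
`Sb = C L^C'` (divisor moments), `M Q ≤ z P ≤ Y`. -/
def S_MIN : Prop := ∀ U : ℕ, ∃ C N₀ : ℕ, ∀ N : ℕ, N₀ ≤ N → ∀ z P Y : ℕ, N ≤ z ^ 3 → (z : ℝ) ≤ 2 * (N : ℝ) ^ (1 / 3 : ℝ) →
  Real.log N ^ C ≤ P → (P : ℝ) ≤ 2 * Real.log N ^ C → (N : ℝ) ^ (1 / 3 : ℝ) * Real.log N ^ (2 * C) ≤ Y → Y ^ 2 ≤ N →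
  ∀ g : ℕ → ℂ, (∀ n ∈ Icc 1 N, ‖g n‖ ≤ Real.log N) → Nonempty (Dec g N z P) → ∀ γ : ℝ, Mnr P Y γ →
  Wn g N Y γ ≤ N * (Y : ℝ) ^ 2 / Real.log N ^ U

/-- **MINZ**: the model on the minor arcs. `lamz z n = (Vz z)⁻¹ 1(no prime p ≤ z divides n)`. Proof:
`1(no p ≤ z divides n) = ∑_{d | n, d | P(z)} μ(d)`; the part `d ≤ D = ⌊N^(1/10)⌋` is `cv α 1` with `|α| ≤ 1`: `T1` with
`V = 0`, `w = 1` (conditions `D Q ≤ Y²`, `D² Q ≤ N Y`). The rest is at most `τ(n) 1(n has a squarefree divisor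
`d | P(z)`, `d > D`)`; for `z ≤ L^E` its square has the sum `≤ N / L^(U+..)` over `n ≤ N` (Rankin's trick:
`1(..) ≤ ∑_{d | n, d | P(z)} (d / D)^κ` with `κ = 1 / log z` ... see how `V5helper24/CR/LZ.lean` or `W93/LV` do it), then
`ELM1`. `(Vz z)⁻¹ ≤ L`. -/
def S_MINZ : Prop := ∀ U E : ℕ, ∃ C N₀ : ℕ, ∀ N : ℕ, N₀ ≤ N → ∀ z P Y : ℕ, 1 ≤ z → (z : ℝ) ≤ Real.log N ^ E →
  (Vz z)⁻¹ ≤ Real.log N → Real.log N ^ C ≤ P → (P : ℝ) ≤ (N : ℝ) ^ (1 / 20 : ℝ) → (N : ℝ) ^ (1 / 4 : ℝ) ≤ Y → Y ^ 2 ≤ N →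
  ∀ γ : ℝ, Mnr P Y γ → Wn (fun n => ((lamz z n : ℝ) : ℂ)) N Y γ ≤ N * (Y : ℝ) ^ 2 / Real.log N ^ U

/-! ### major arcs -/

/-- **WMU**: windows of the Möbius function at rational points, from `SIAt`; the analogue of `CM.win_dz`
(`Pool/Agent/V5helper51/CM/Win.lean`; copy that proof, the Möbius half of `SIAt` in place of the `Λ` half, no model). -/
def S_WMU : Prop := ∀ B U : ℕ, ∃ C K N₀ : ℕ, ∀ N : ℕ, N₀ ≤ N → ∀ q : ℕ, 1 ≤ q → (q : ℝ) ≤ Real.log N ^ B →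
  ∀ a Y : ℕ, (N : ℝ) ^ (1 / 3 : ℝ) * Real.log N ^ C ≤ Y → (Y : ℝ) * Real.log N ^ K ≤ N →
  Wn mu N Y ((a : ℝ) / q) ≤ N * (Y : ℝ) ^ 2 / Real.log N ^ U

/-! ### all frequencies (job MWA: the assembly) -/

/-- **MWM**: the Möbius function. Proof. Let `Y₂` be the least integer `≥ N^(1/3) L^(C₂)`; first `Y = Y₂` (then `Y² ≤ N`).
If `Mnr P Y γ` use `MIN` and `DEC`. If not, there are `q ≤ P ≤ 2 L^C₁` and `a` with `|γ - a/q| ≤ P / (q Y)`; use `SUB` with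
`r = a / q` (reduce `a` mod `q` to a natural number, `Wn` has period one in `γ`), `Y₁ = ⌊Y / (P L^(U+..))⌋`, and `WMU` for
`Y₁`. For a general `Y` use `SUB` with `r = γ`, `Y₁ = Y₂`: if `Y ≥ Y₂ L^(U+..)` the error `(Y₁/Y)²` is small; for
`Y₂ ≤ Y ≤ Y₂ L^(..)` argue as for `Y₂` directly (so treat all `Y` with `Y² ≤ N` directly, and larger `Y` by `SUB`). -/
def S_MWM : Prop := ∀ U : ℕ, ∃ C N₀ : ℕ, ∀ N : ℕ, N₀ ≤ N → ∀ Y : ℕ, (N : ℝ) ^ (1 / 3 : ℝ) * Real.log N ^ C ≤ Y → Y ≤ N →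
  ∀ γ : ℝ, Wn mu N Y γ ≤ N * (Y : ℝ) ^ 2 / Real.log N ^ U

/-- **MWL**: the von Mangoldt function minus the model (minor arcs: `MIN` for `Λ` and `MINZ`; major arcs: `CM.win_dz` with
`θ = 1/3`, `S_SIA`, `S_LZ`: `V5helper24.CR.sia_all`, `V5helper24.CR.lz`). -/
def S_MWL : Prop := ∀ U : ℕ, ∃ C B : ℕ, ∀ E : ℕ, ∃ N₀ : ℕ, ∀ N : ℕ, N₀ ≤ N → ∀ z : ℕ, Real.log N ^ B ≤ z →
  (z : ℝ) ≤ Real.log N ^ E → (Vz z)⁻¹ ≤ Real.log N → ∀ Y : ℕ, (N : ℝ) ^ (1 / 3 : ℝ) * Real.log N ^ C ≤ Y → Y ≤ N →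
  ∀ γ : ℝ, Wn (DZ z) N Y γ ≤ N * (Y : ℝ) ^ 2 / Real.log N ^ U

/-! ### families (job FAM) -/

/-- `F` on `[1, N]`, zero elsewhere, as a function on the integers -/
noncomputable def fN (F : ℕ → ℂ) (N : ℕ) (k : ℤ) : ℂ := if 1 ≤ k ∧ k ≤ N then F k.toNat else 0

/-- **FAM**: correlations along families in short intervals. `s 1, …, s x` are integers in an interval of the length
`2 B Y`, `energy p x s` is the number of the solutions of `s_{i_1} + ⋯ + s_{i_p} = s_{j_1} + ⋯ + s_{j_p}`.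
Proof. Let `M ≥ (2 B + 4) N + ..` (so that no wrap-around occurs), `T` the sum on the left. Fourier analysis on `ℤ / M`:
`T = (1/M) ∑_t Ĝ(t) K(t) F̂(t)` (up to conjugations), `F̂(t) = Sf F N (t/M)`, `K(t) = ∑_m c_m e(± s_m t / M)`, so
`|T|² ≤ (1/M) (∑ |G|²) ∑_t |F̂(t)|² |K(t)|²`. Cut `[0, M)` into blocks of consecutive `t` of length `⌈M / (12 Y)⌉` or so;
on a block `∑_t |F̂(t)|² ≤ 4 M R N` (`CM.gall` with `r = t_0 / M`). The blocks on which `|K| ≤ η x` everywhere contribute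
`≤ (η x)² ∑_t |F̂(t)|² ≤ (η x)² M S2 N` (Parseval). For the others choose a point `t_j` with `|K(t_j)| > η x`. Taking
every second block the points `t_j / M` are spaced by `≥ 1 / (12 Y)` or so modulo one, and `K^p` is (after the removal
of the common factor) a trigonometric polynomial with frequencies in an interval of the length `2 p B Y` and
coefficients with the square sum `≤ energy p x s`; by the large sieve `∑_j |K(t_j)|^(2p) ≤ C_{p,B} Y energy`, so the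
number of these blocks is `≤ C Y energy / (η x)^(2p)`, and each contributes `≤ x² 4 M R N`. (The large sieve inequality is
in the libraries, e.g. `Helper112`; the present shape of the first moment over families: `H560R3/GB/LamE.lean`,
`H373R2/T7/BilE.lean`.) -/
def S_FAM : Prop := ∀ p B : ℕ, 1 ≤ p → ∃ K : ℝ, 1 ≤ K ∧ ∀ (N Y A x : ℕ) (F G c : ℕ → ℂ) (s : ℕ → ℤ) (c₀ : ℤ) (R η S2 : ℝ),
  1 ≤ Y → Y ≤ N → 1 ≤ x → (∀ γ, Wn F N Y γ ≤ R * (N * (Y : ℝ) ^ 2)) → (∀ m ∈ Icc 1 x, |s m - c₀| ≤ B * Y) → |c₀| ≤ B * N →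
  A ≤ B * N → (∀ m, ‖c m‖ ≤ 1) → ∑ n ∈ Icc 1 N, ‖F n‖ ^ 2 ≤ S2 * N → 0 < η → 0 ≤ R →
  ‖∑ a ∈ Icc 1 A, ∑ m ∈ Icc 1 x, G a * c m * fN F N ((a : ℤ) + s m)‖ ^ 2 ≤
    K * (∑ a ∈ Icc 1 A, ‖G a‖ ^ 2) * (N * (x : ℝ) ^ 2) *
      (R * ((energy p x s : ℝ) * Y / (x : ℝ) ^ (2 * p)) / η ^ (2 * p) + η ^ 2 * S2)

/-- **MUS**: the first moment for the Möbius function (from `MWM`, `FAM`; choose `η = L^(-(U+..))`, and `U'` in `MWM`
large in terms of `p`, `C`, `U`; `c_m` the conjugate phases of the inner sums). `g` is arbitrary with a mean square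
`≤ L^T`. `a + s m ≤ 3 B N`, so take `F = μ` on `[1, N']`, `N' = 4 B N` (and `Y' = Y`; `B ≥ 1` w.l.o.g., `N'^(1/3)`,
`log N'` differ by constants only; for `B = 0` the sum over `a` is empty). The same for `- s` by reflection is not needed. -/
def S_MUS : Prop := ∀ p B C T U : ℕ, 1 ≤ p → ∃ D N₀ : ℕ, ∀ N : ℕ, N₀ ≤ N → ∀ Y : ℕ,
  (N : ℝ) ^ (1 / 3 : ℝ) * Real.log N ^ D ≤ Y → Y ≤ N → ∀ (x : ℕ) (s : ℕ → ℤ) (c₀ : ℤ), |c₀| ≤ B * N →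
  (∀ m ∈ Icc 1 x, |s m - c₀| ≤ B * Y) → (energy p x s : ℝ) * Y ≤ Real.log N ^ C * (x : ℝ) ^ (2 * p) →
  ∀ A : ℕ, A ≤ B * N → ∀ g : ℕ → ℂ, ∑ a ∈ Icc 1 A, ‖g a‖ ^ 2 ≤ N * Real.log N ^ T →
  ∑ m ∈ Icc 1 x, ‖∑ a ∈ Icc 1 A, g a * exI mu ((a : ℤ) + s m)‖ ≤ N * x / Real.log N ^ U

/-- **LAS**: the first moment for `Λ - Λ_z` -/
def S_LAS : Prop := ∀ p B C T U : ℕ, 1 ≤ p → ∃ D B₀ : ℕ, ∀ E : ℕ, ∃ N₀ : ℕ, ∀ N : ℕ, N₀ ≤ N → ∀ Y : ℕ,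
  (N : ℝ) ^ (1 / 3 : ℝ) * Real.log N ^ D ≤ Y → Y ≤ N → ∀ (x : ℕ) (s : ℕ → ℤ) (c₀ : ℤ), |c₀| ≤ B * N →
  (∀ m ∈ Icc 1 x, |s m - c₀| ≤ B * Y) → (energy p x s : ℝ) * Y ≤ Real.log N ^ C * (x : ℝ) ^ (2 * p) →
  ∀ A : ℕ, A ≤ B * N → ∀ z : ℕ, Real.log N ^ B₀ ≤ z → (z : ℝ) ≤ Real.log N ^ E →
  ∀ g : ℕ → ℂ, ∑ a ∈ Icc 1 A, ‖g a‖ ^ 2 ≤ N * Real.log N ^ T →
  ∑ m ∈ Icc 1 x, ‖∑ a ∈ Icc 1 A, g a * ((lamI (a + s m) - lamzI z (a + s m) : ℝ) : ℂ)‖ ≤ N * x / Real.log N ^ U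

end Pool.Agent.V5helper51.MW
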