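import Pool.Agent.V5helper51.MW.Stm

/-! # Parseval for windows -/

set_option autoImplicit false

namespace Pool.Agent.V5helper51.MW

open Finset
open Pool.Agent.H807R2.Dav (ee norm_ee)
open Pool.Agent.V5helper51.CM (Sf Bw window_id)

lemma pars_nat {M K : ℕ} (hM : M ≠ 0) (hK : K ≤ M) (H : ℕ → ℂ) :
    ∑ t ∈ range M, ‖∑ k ∈ range K, H k * ee ((k : ℝ) * ((t : ℝ) / M))‖ ^ 2 = (M : ℝ) * ∑ k ∈ range K, ‖H k‖ ^ 2 := by
  obtain ⟨G, hG⟩ : ∃ G : ℤ → ℂ, G = fun k => H k.toNat := ⟨_, rfl⟩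
  have h2 := Pool.Agent.Y697.GJ.pars_gen hM ((range K).map Nat.castEmbedding) (by
    intro k hk k' hk' hd
    rw [mem_map] at hk hk'
    obtain ⟨a, ha, rfl⟩ := hk
    obtain ⟨b, hb, rfl⟩ := hk'
    rw [mem_range] at ha hb
    simp only [Nat.castEmbedding_apply] at hd ⊢
    obtain ⟨c, hc⟩ := hd
    have hc0 : c = 0 := by
      by_contra h0
      rcases lt_or_gt_of_ne h0 with h | h
      · have h6 : (M : ℤ) * c ≤ (M : ℤ) * (-1) := mul_le_mul_of_nonneg_left (by omega) (by omega)
        omega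
      · have h6 : (M : ℤ) * 1 ≤ (M : ℤ) * c := mul_le_mul_of_nonneg_left (by omega) (by omega)
        omega
    rw [hc0, mul_zero] at hc
    omega) G
  simp only [sum_map, Nat.castEmbedding_apply] at h2
  rw [hG] at h2
  simpa only [Int.toNat_natCast, Int.cast_natCast] using h2

theorem par : S_PAR := by
  intro G N Y γ hY hN
  have hM : N + Y ≠ 0 := by omega
  constructor
  · have h1 := pars_nat hM le_rfl (Bw G N Y γ)
    unfold Wn
    rw [← h1]
    refine sum_congr rfl fun t _ => ?_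
    rw [window_id, norm_mul, mul_pow]
  · have h1 := pars_nat (K := Y) hM (by omega) (fun _ => (1 : ℂ))
    simp only [one_mul, norm_one, one_pow, sum_const, card_range, nsmul_eq_mul, mul_one] at h1
    exact h1

end Pool.Agent.V5helper51.MW
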