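import Pool.Agent.V5helper51.MW.T1a

/-! # Type I sums in windows -/

set_option autoImplicit false

namespace Pool.Agent.V5helper51.MW

open Finset
open Pool.Agent.H807R2.Dav (ee norm_ee ee_add ee_add_int ee_int KK dd KK_nonneg KK_le KK_le' geo_bound vino
  sum_inv_range dd_nonneg dd_neg dd_add_int dd_ge dd_add_ge)
open Pool.Agent.V5helper51.CM (Sf Bw)

/-- a monotone function whose increments majorise `1 / (1 + |u|)²` -/
lemma incr (u : ℝ) : 1 / (1 + |u|) ^ 2 ≤ 4 * ((u + 1) / (1 + |u + 1|) - u / (1 + |u|)) := by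
  rcases le_or_gt 0 u with h | h
  · rw [abs_of_nonneg h, abs_of_nonneg (by linarith : 0 ≤ u + 1)]
    have e : (u + 1) / (1 + (u + 1)) - u / (1 + u) = 1 / ((u + 2) * (u + 1)) := by
      field_simp
      ring
    rw [e, ← mul_one_div_cancel (two_ne_zero : (2 : ℝ) ≠ 0)]
    rw [mul_one_div_cancel (two_ne_zero : (2 : ℝ) ≠ 0), mul_one_div, div_le_div_iff₀ (by positivity) (by positivity)]
    nlinarith
  · rcases le_or_gt u (-1) with h1 | h1
    · rw [abs_of_neg h, abs_of_nonpos (by linarith : u + 1 ≤ 0)]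
      have hu : u ≠ 0 := h.ne
      have hu1 : 0 < 1 - u := by linarith
      have e : (u + 1) / (1 + -(u + 1)) - u / (1 + -u) = 1 / ((-u) * (1 - u)) := by
        have e1 : 1 + -(u + 1) = -u := by ring
        have e2 : 1 + -u = 1 - u := by ring
        rw [e1, e2]
        have h3 : (-u) ≠ 0 := neg_ne_zero.2 hu
        have h4 : (1 - u) ≠ 0 := hu1.ne'
        field_simp
        ring
      rw [e, mul_one_div, div_le_div_iff₀ (by nlinarith) (by nlinarith)]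
      nlinarith
    · rw [abs_of_neg h, abs_of_nonneg (by linarith : 0 ≤ u + 1)]
      have h2 : (u + 1) / 2 ≤ (u + 1) / (1 + (u + 1)) := div_le_div_of_nonneg_left (by linarith) (by linarith) (by linarith)
      have h3 : (-u) / 2 ≤ (-u) / (1 + -u) := div_le_div_of_nonneg_left (by linarith) (by linarith) (by linarith)
      have h4 : 1 / (1 + -u) ^ 2 ≤ 1 := by
        rw [div_le_one (by nlinarith)]
        nlinarith
      have h5 : u / (1 + -u) = -((-u) / (1 + -u)) := by ring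
      rw [h5]
      linarith

lemma sum_incr (M : ℕ) (x : ℝ) : ∑ t ∈ range M, 1 / (1 + |(t : ℝ) - x|) ^ 2 ≤ 8 := by
  have h1 : ∑ t ∈ range M, 1 / (1 + |(t : ℝ) - x|) ^ 2 ≤
      ∑ t ∈ range M, (4 * (((t + 1 : ℕ) : ℝ) - x) / (1 + |((t + 1 : ℕ) : ℝ) - x|) - 4 * ((t : ℝ) - x) / (1 + |(t : ℝ) - x|)) := by
    apply sum_le_sum
    intro t _
    refine (incr ((t : ℝ) - x)).trans (le_of_eq ?_)
    push_cast
    have : (t : ℝ) - x + 1 = t + 1 - x := by ring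
    rw [this]
    ring
  refine h1.trans ?_
  rw [sum_range_sub (fun t : ℕ => 4 * ((t : ℝ) - x) / (1 + |(t : ℝ) - x|))]
  have h2 : ∀ u : ℝ, |4 * u / (1 + |u|)| ≤ 4 := by
    intro u
    rw [abs_div, abs_mul, abs_of_pos (by positivity : (0 : ℝ) < 1 + |u|), div_le_iff₀ (by positivity)]
    norm_num
  have h3 := abs_le.1 (h2 ((M : ℝ) - x))
  have h4 := abs_le.1 (h2 (((0 : ℕ) : ℝ) - x))
  linarith [h3.2, h4.1]

lemma sum_tail {Q : ℝ} (hQ : 0 < Q) (n : ℕ) : ∑ q ∈ Icc 1 n, 1 / (Q + q) ^ 2 ≤ 1 / Q := by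
  have h : ∑ q ∈ Icc 1 n, 1 / (Q + q) ^ 2 ≤ 1 / Q - 1 / (Q + n) := by
    induction n with
    | zero => simp
    | succ n ih =>
      rw [sum_Icc_succ_top (by omega)]
      have h1 : 1 / (Q + ((n + 1 : ℕ) : ℝ)) ^ 2 ≤ 1 / (Q + n) - 1 / (Q + ((n + 1 : ℕ) : ℝ)) := by
        have h2 : (0 : ℝ) < Q + n := by positivity
        push_cast
        have h3 : (0 : ℝ) < Q + (n + 1) := by positivity
        have e : 1 / (Q + (n : ℝ)) - 1 / (Q + (n + 1)) = 1 / ((Q + n) * (Q + (n + 1))) := by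
          field_simp
          ring
        rw [e]
        apply one_div_le_one_div_of_le (by positivity)
        nlinarith
      linarith
  have h2 : (0 : ℝ) ≤ 1 / (Q + n) := by positivity
  linarith

lemma sum_sq_inv (q : ℕ) : ∑ i ∈ Ico 1 q, 1 / (i : ℝ) ^ 2 ≤ 2 := by
  have h : ∀ n : ℕ, 1 ≤ n → ∑ i ∈ Ico 1 (n + 1), 1 / (i : ℝ) ^ 2 ≤ 2 - 1 / (n : ℝ) := by
    intro n hn
    induction n, hn using Nat.le_induction with
    | base => norm_num
    | succ n hn ih =>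
      rw [sum_Ico_succ_top (by omega)]
      have hn0 : (0 : ℝ) < n := by exact_mod_cast (by omega : 0 < n)
      have h1 : 1 / (((n + 1 : ℕ) : ℝ)) ^ 2 ≤ 1 / (n : ℝ) - 1 / ((n + 1 : ℕ) : ℝ) := by
        push_cast
        have e : 1 / (n : ℝ) - 1 / ((n : ℝ) + 1) = 1 / (n * (n + 1)) := by
          field_simp
          ring
        rw [e]
        apply one_div_le_one_div_of_le (by positivity)
        nlinarith
      linarith
  rcases Nat.lt_or_ge q 2 with h2 | h2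
  · have : Ico 1 q = ∅ := Ico_eq_empty (by omega)
    rw [this]
    simp
  · have h3 := h (q - 1) (by omega)
    rw [Nat.sub_add_cancel (by omega)] at h3
    have h4 : (0 : ℝ) ≤ 1 / ((q - 1 : ℕ) : ℝ) := by positivity
    linarith

/-- the weights of the frequencies near one rational number -/
lemma gsum {N Y : ℕ} (hY : 1 ≤ Y) (hYN : Y ^ 2 ≤ N) (x : ℝ) :
    ∑ t ∈ range (N + Y), ((1 + Y * |(t : ℝ) / (N + Y : ℕ) - x|) / (1 + N * |(t : ℝ) / (N + Y : ℕ) - x|)) ^ 2 ≤ 68 := by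
  have hYY : Y ≤ Y ^ 2 := Nat.le_self_pow (by norm_num) Y
  have hYle : Y ≤ N := hYY.trans hYN
  have hN1 : 1 ≤ N := hY.trans hYle
  have hN0 : (0 : ℝ) < N := by exact_mod_cast hN1
  have hY0 : (0 : ℝ) < Y := by exact_mod_cast hY
  have hYN' : (Y : ℝ) ^ 2 ≤ N := by exact_mod_cast hYN
  have hYle' : (Y : ℝ) ≤ N := by exact_mod_cast hYle
  obtain ⟨M, hM⟩ : ∃ M, M = N + Y := ⟨_, rfl⟩
  have hM0 : (0 : ℝ) < M := by exact_mod_cast (by omega : 0 < M)
  have hMN : (M : ℝ) ≤ 2 * N := by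
    rw [hM]
    push_cast
    linarith
  rw [← hM]
  have h1 : ∀ t ∈ range M, ((1 + Y * |(t : ℝ) / M - x|) / (1 + N * |(t : ℝ) / M - x|)) ^ 2 ≤
      8 * (1 / (1 + |(t : ℝ) - M * x|) ^ 2) + 2 * (1 / N) := by
    intro t _
    obtain ⟨u, hu⟩ : ∃ u, u = |(t : ℝ) / M - x| := ⟨_, rfl⟩
    have hu0 : 0 ≤ u := by rw [hu]; exact abs_nonneg _
    rw [← hu]
    have h2 : |(t : ℝ) - M * x| ≤ 2 * (N * u) := by
      have : (t : ℝ) - M * x = M * ((t : ℝ) / M - x) := by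
        field_simp
      rw [this, abs_mul, abs_of_pos hM0, ← hu]
      nlinarith
    have h3 : (1 + Y * u) / (1 + N * u) ≤ 1 / (1 + N * u) + Y / N := by
      rw [add_div]
      have : Y * u / (1 + N * u) ≤ Y / N := by
        rw [div_le_div_iff₀ (by positivity) hN0]
        nlinarith
      linarith
    have h4 : 1 / (1 + N * u) ≤ 2 * (1 / (1 + |(t : ℝ) - M * x|)) := by
      rw [mul_one_div, div_le_div_iff₀ (by positivity) (by positivity)]
      linarith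
    have h5 : (0 : ℝ) ≤ 1 / (1 + N * u) := by positivity
    have h6 : ((Y : ℝ) / N) ^ 2 ≤ 1 / N := by
      rw [div_pow, div_le_div_iff₀ (by positivity) hN0, one_mul, sq (N : ℝ)]
      exact mul_le_mul_of_nonneg_right hYN' hN0.le
    calc ((1 + Y * u) / (1 + N * u)) ^ 2 ≤ (1 / (1 + N * u) + Y / N) ^ 2 := by
          apply pow_le_pow_left₀ (by positivity) h3
      _ ≤ 2 * (1 / (1 + N * u)) ^ 2 + 2 * (Y / N) ^ 2 := by nlinarith [sq_nonneg (1 / (1 + N * u) - (Y : ℝ) / N)]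
      _ ≤ 2 * (2 * (1 / (1 + |(t : ℝ) - M * x|))) ^ 2 + 2 * (1 / N) := by
          gcongr
      _ = _ := by
          rw [mul_pow, div_pow, one_pow]
          ring
  refine (sum_le_sum h1).trans ?_
  rw [sum_add_distrib, ← mul_sum, sum_const, card_range, nsmul_eq_mul]
  have h2 := sum_incr M (M * x)
  have h3 : (M : ℝ) * (2 * (1 / N)) ≤ 4 := by
    rw [mul_one_div, mul_div_assoc', div_le_iff₀ hN0]
    linarith
  linarith

/-- the majorant near a rational number with the denominator `q`: a complete system of residues -/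
lemma ksum {Y q : ℕ} (hq : 1 ≤ q) (γ : ℝ) (c : ℤ) (hc : |q * γ - c| ≤ 1 / 2) :
    ∑ i ∈ range (3 * q), KK Y (((c : ℝ) + i) / q - 1 - γ) ^ 2 ≤ 3 * (KK Y ((c : ℝ) / q - γ)) ^ 2 + 27 * (q : ℝ) ^ 2 := by
  have hq0 : (0 : ℝ) < q := by exact_mod_cast hq
  have hper : ∀ (i : ℕ) (k : ℤ), KK (Y : ℝ) (((c : ℝ) + i) / q + k - γ) = KK Y (((c : ℝ) + i) / q - γ) := by
    intro i k
    unfold KK
    have : ((c : ℝ) + i) / q + k - γ = ((c : ℝ) + i) / q - γ + k := by ring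
    rw [this, dd_add_int]
  have e : ∑ i ∈ range (3 * q), KK Y (((c : ℝ) + i) / q - 1 - γ) ^ 2 =
      3 * ∑ i ∈ range q, KK Y (((c : ℝ) + i) / q - γ) ^ 2 := by
    have e3 : 3 * q = q + (q + q) := by ring
    rw [e3, sum_range_add, sum_range_add]
    have h0 : ∀ i ∈ range q, KK (Y : ℝ) (((c : ℝ) + i) / q - 1 - γ) ^ 2 = KK Y (((c : ℝ) + i) / q - γ) ^ 2 := by
      intro i _
      have := hper i (-1)
      push_cast at this
      rw [← this]
      congr 2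
    have h1 : ∀ i ∈ range q, KK (Y : ℝ) (((c : ℝ) + (q + i : ℕ)) / q - 1 - γ) ^ 2 = KK Y (((c : ℝ) + i) / q - γ) ^ 2 := by
      intro i _
      have : ((c : ℝ) + (q + i : ℕ)) / q - 1 - γ = ((c : ℝ) + i) / q - γ := by
        push_cast
        field_simp
        ring
      rw [this]
    have h2 : ∀ i ∈ range q, KK (Y : ℝ) (((c : ℝ) + (q + (q + i) : ℕ)) / q - 1 - γ) ^ 2 =
        KK Y (((c : ℝ) + i) / q - γ) ^ 2 := by
      intro i _
      have h3 := hper i 1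
      have : ((c : ℝ) + (q + (q + i) : ℕ)) / q - 1 - γ = ((c : ℝ) + i) / q + ((1 : ℤ) : ℝ) - γ := by
        push_cast
        field_simp
        ring
      rw [this, h3]
    rw [sum_congr rfl h0, sum_congr rfl h1, sum_congr rfl h2]
    ring
  rw [e]
  have h0 : ∑ i ∈ range q, KK Y (((c : ℝ) + i) / q - γ) ^ 2 ≤ (KK Y ((c : ℝ) / q - γ)) ^ 2 + 9 * (q : ℝ) ^ 2 := by
    rw [← Nat.Ico_zero_eq_range, sum_eq_sum_Ico_succ_bot (by omega)]
    have e0 : ((c : ℝ) + ((0 : ℕ) : ℝ)) / q = (c : ℝ) / q := by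
      push_cast
      rw [add_zero]
    rw [e0]
    apply add_le_add le_rfl
    rw [zero_add]
    have h1 : ∀ i ∈ Ico 1 q, KK (Y : ℝ) (((c : ℝ) + i) / q - γ) ^ 2 ≤
        9 / 4 * (q : ℝ) ^ 2 * (1 / (i : ℝ) ^ 2 + 1 / ((q : ℝ) - i) ^ 2) := by
      intro i hi
      rw [mem_Ico] at hi
      have hi1 : (1 : ℝ) ≤ i := by exact_mod_cast hi.1
      have hiq : (i : ℝ) + 1 ≤ q := by exact_mod_cast hi.2
      obtain ⟨m, hm⟩ : ∃ m : ℝ, m = min (i : ℝ) ((q : ℝ) - i) := ⟨_, rfl⟩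
      have hm1 : 1 ≤ m := by
        rw [hm]
        exact le_min hi1 (by linarith)
      have hlow : ∀ k : ℤ, m / (2 * q) ≤ |((c : ℝ) + i) / q - γ - k| := by
        intro k
        have e1 : ((c : ℝ) + i) / q - γ - k = (((i : ℝ) - k * q) + (c - q * γ)) / q := by
          field_simp
          ring
        rw [e1, abs_div, abs_of_pos hq0, div_le_div_iff₀ (by positivity) hq0]
        have h2 : m ≤ |(i : ℝ) - k * q| := by
          rcases le_or_gt k 0 with hk | hk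
          · have hk' : (k : ℝ) ≤ 0 := by exact_mod_cast hk
            have h3 : (i : ℝ) ≤ (i : ℝ) - k * q := by nlinarith
            exact (min_le_left _ _ |>.trans' hm.le).trans (h3.trans (le_abs_self _))
          · have hk' : (1 : ℝ) ≤ k := by exact_mod_cast hk
            have h3 : (q : ℝ) - i ≤ -((i : ℝ) - k * q) := by nlinarith
            exact (min_le_right _ _ |>.trans' hm.le).trans (h3.trans (neg_le_abs _))
        have h3 := abs_sub_abs_le_abs_sub ((i : ℝ) - k * q) (-(c - q * γ))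
        rw [abs_neg, sub_neg_eq_add] at h3
        have h4 : |(c : ℝ) - q * γ| ≤ 1 / 2 := by
          rw [abs_sub_comm]
          exact hc
        have h5 : m / 2 ≤ |(i : ℝ) - k * q + (c - q * γ)| := by linarith
        nlinarith
      have hdd := dd_low hlow
      have hm0 : 0 < m := by linarith
      have h2 : KK (Y : ℝ) (((c : ℝ) + i) / q - γ) ≤ 3 / 2 * (q / m) := by
        refine (KK_le' (Nat.cast_nonneg _) (by positivity : 0 < 4 * (m / (2 * (q : ℝ)))) hdd).trans (le_of_eq ?_)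
        field_simp
        norm_num
      have h3 : 1 / m ^ 2 ≤ 1 / (i : ℝ) ^ 2 + 1 / ((q : ℝ) - i) ^ 2 := by
        have h5 : (0 : ℝ) ≤ 1 / (i : ℝ) ^ 2 := by positivity
        have h6 : (0 : ℝ) ≤ 1 / ((q : ℝ) - i) ^ 2 := by positivity
        rcases min_choice (i : ℝ) ((q : ℝ) - i) with h | h
        · rw [hm, h]
          linarith
        · rw [hm, h]
          linarith
      calc KK (Y : ℝ) (((c : ℝ) + i) / q - γ) ^ 2 ≤ (3 / 2 * (q / m)) ^ 2 :=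
            pow_le_pow_left₀ (KK_nonneg (Nat.cast_nonneg _) _) h2 2
        _ = 9 / 4 * (q : ℝ) ^ 2 * (1 / m ^ 2) := by
            rw [mul_pow, div_pow]
            ring
        _ ≤ _ := by gcongr
    refine (sum_le_sum h1).trans ?_
    rw [← mul_sum, sum_add_distrib]
    have h2 := sum_sq_inv q
    have h3 : ∑ i ∈ Ico 1 q, 1 / ((q : ℝ) - i) ^ 2 = ∑ i ∈ Ico 1 q, 1 / (i : ℝ) ^ 2 := by
      refine sum_bij' (fun i _ => q - i) (fun i _ => q - i) ?_ ?_ ?_ ?_ ?_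
      · intro i hi
        rw [mem_Ico] at hi ⊢
        omega
      · intro i hi
        rw [mem_Ico] at hi ⊢
        omega
      · intro i hi
        rw [mem_Ico] at hi
        omega
      · intro i hi
        rw [mem_Ico] at hi
        omega
      · intro i hi
        rw [mem_Ico] at hi
        rw [Nat.cast_sub hi.2.le]
    rw [h3]
    have : 0 ≤ 9 / 4 * (q : ℝ) ^ 2 := by positivity
    nlinarith
  linarith

/-- the central term -/
lemma kzero {Y q : ℕ} {Q γ : ℝ} (hY : 1 ≤ Y) (hQ : 1 ≤ Q) (hq : 1 ≤ q) (hM : Mnr Q Y γ) (c : ℤ) (hc : |q * γ - c| ≤ 1 / 2) :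
    (KK Y ((c : ℝ) / q - γ)) ^ 2 ≤ 36 * (q : ℝ) ^ 2 * (Y : ℝ) ^ 2 * (1 / (Q + q) ^ 2) := by
  have hq0 : (0 : ℝ) < q := by exact_mod_cast hq
  have hq1 : (1 : ℝ) ≤ q := by exact_mod_cast hq
  have hY0 : (0 : ℝ) < Y := by exact_mod_cast hY
  have hQ0 : 0 < Q := by linarith
  have hK0 := KK_nonneg hY0.le ((c : ℝ) / q - γ)
  have e : 36 * (q : ℝ) ^ 2 * (Y : ℝ) ^ 2 * (1 / (Q + q) ^ 2) = (6 * q * Y / (Q + q)) ^ 2 := by
    rw [div_pow]
    ring
  rw [e]
  apply pow_le_pow_left₀ hK0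
  rcases le_or_gt (q : ℝ) Q with h | h
  · have h1 := hM q hq h c
    have hlow : ∀ k : ℤ, |q * γ - c| / q ≤ |(c : ℝ) / q - γ - k| := by
      intro k
      have e1 : (c : ℝ) / q - γ - k = (-((k : ℝ) * q) - (q * γ - c)) / q := by
        field_simp
        ring
      rw [e1, abs_div, abs_of_pos hq0]
      apply div_le_div_of_nonneg_right _ hq0.le
      by_cases hk : k = 0
      · rw [hk]
        simp only [Int.cast_zero, zero_mul, neg_zero, zero_sub, abs_neg]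
        exact le_rfl
      · have h2 : (q : ℝ) ≤ |-((k : ℝ) * q)| := by
          rw [abs_neg, abs_mul, abs_of_pos hq0]
          have : (1 : ℝ) ≤ |(k : ℝ)| := by exact_mod_cast Int.one_le_abs hk
          nlinarith
        have h3 := abs_sub_abs_le_abs_sub (-((k : ℝ) * q)) (q * γ - c)
        linarith
    have hdd := dd_low hlow
    have h2 : 0 < |(q : ℝ) * γ - c| := by
      by_contra hno
      push Not at hno
      have : (Y : ℝ) * |(q : ℝ) * γ - c| ≤ 0 := mul_nonpos_of_nonneg_of_nonpos hY0.le hno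
      linarith
    refine (KK_le' hY0.le (by positivity) hdd).trans ?_
    rw [div_le_div_iff₀ (by positivity) (by positivity)]
    have e2 : 6 * q * Y * (4 * (|(q : ℝ) * γ - c| / q)) = 24 * (Y * |(q : ℝ) * γ - c|) := by
      field_simp
      ring
    rw [e2]
    linarith
  · refine (KK_le hY0.le _).trans ?_
    rw [le_div_iff₀ (by positivity)]
    nlinarith

/-- **T1** -/
theorem t1 (hPAR : S_PAR) (hT1a : S_T1a) : S_T1 := by
  obtain ⟨C, hC, hT⟩ := hT1a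
  refine ⟨2 * C ^ 2 * 800000, by nlinarith, ?_⟩
  intro N D Y V Q γ α w hN hQ hD hDN hY hDQ hDQ2 hYN hM hα hα1 hw hw0 hwN
  have hYle : Y ≤ N := (Nat.le_self_pow (by norm_num) Y).trans hYN
  have hN0 : (0 : ℝ) < N := by exact_mod_cast (by omega : 0 < N)
  have hN2 : (2 : ℝ) ≤ N := by exact_mod_cast hN
  have hY0 : (0 : ℝ) < Y := by exact_mod_cast hY
  have hD0 : (0 : ℝ) < D := by exact_mod_cast hD
  have hQ0 : 0 < Q := by linarith
  obtain ⟨M, hMd⟩ : ∃ M, M = N + Y := ⟨_, rfl⟩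
  have hM0 : (0 : ℝ) < M := by exact_mod_cast (by omega : 0 < M)
  have hNM : (N : ℝ) ≤ M := by exact_mod_cast (by omega : N ≤ M)
  obtain ⟨L, hL⟩ : ∃ L, L = Real.log (N : ℝ) := ⟨_, rfl⟩
  have hL0 : 0 ≤ L := by rw [hL]; exact Real.log_nonneg (by linarith)
  obtain ⟨g, hg⟩ : ∃ g : ℕ → ℂ, g = fun n => if V < n then (w n : ℂ) else 0 := ⟨_, rfl⟩
  obtain ⟨hp1, hp2⟩ := hPAR (cv α g) N Y γ hY (by omega)
  rw [← hMd] at hp1 hp2
  rw [← hg, ← hL]
  obtain ⟨F, hF⟩ : ∃ F : ℕ → ℝ, F = fun t : ℕ => ‖∑ j ∈ range Y, ee (j * ((t : ℝ) / M))‖ := ⟨_, rfl⟩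
  -- the centre of the approximations
  obtain ⟨cc, hcc⟩ : ∃ cc : ℕ → ℤ, cc = fun q : ℕ => round ((q : ℝ) * γ) := ⟨_, rfl⟩
  have hccb : ∀ q : ℕ, |(q : ℝ) * γ - cc q| ≤ 1 / 2 := by
    intro q
    rw [hcc]
    exact abs_sub_round _
  obtain ⟨xx, hxx⟩ : ∃ xx : ℕ → ℕ → ℝ, xx = fun q i : ℕ => ((cc q : ℝ) + i) / q - 1 - γ := ⟨_, rfl⟩
  obtain ⟨GG, hGG⟩ : ∃ GG : ℕ → ℝ → ℝ, GG = fun (t : ℕ) (x : ℝ) =>
      ((1 + Y * |(t : ℝ) / M - x|) / (1 + N * |(t : ℝ) / M - x|)) ^ 2 := ⟨_, rfl⟩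
  have hGG0 : ∀ t x, 0 ≤ GG t x := fun t x => by rw [hGG]; exact sq_nonneg _
  -- one frequency
  have hone : ∀ t ∈ range M, ‖Sf (cv α g) N (γ + (t : ℝ) / M)‖ ^ 2 * F t ^ 2 ≤
      2 * (C * L) ^ 2 * (N : ℝ) ^ 2 * (∑ q ∈ Icc 1 (4 * D), ∑ i ∈ range (3 * q),
        49 * (1 / (q : ℝ) ^ 2) * KK Y (xx q i) ^ 2 * GG t (xx q i)) + 2 * (C * L) ^ 2 * (D : ℝ) ^ 2 * F t ^ 2 := by
    intro t ht
    rw [mem_range] at ht
    have ht0 : (0 : ℝ) ≤ (t : ℝ) / M := by positivity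
    have ht1 : (t : ℝ) / M < 1 := by
      rw [div_lt_one hM0]
      exact_mod_cast ht
    obtain ⟨ρ, hρ1, hρ2⟩ := Real.exists_rat_abs_sub_le_and_den_le (γ + (t : ℝ) / M) (n := 4 * D) (by omega)
    obtain ⟨q, hq⟩ : ∃ q : ℕ, q = ρ.den := ⟨_, rfl⟩
    rw [← hq] at hρ1 hρ2
    have hq1 : 1 ≤ q := by rw [hq]; exact ρ.den_pos
    have hq0 : (0 : ℝ) < q := by exact_mod_cast hq1
    have hq1' : (1 : ℝ) ≤ q := by exact_mod_cast hq1
    have hcop : IsCoprime ρ.num (q : ℤ) := by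
      rw [hq]
      have := ρ.reduced
      rw [Int.isCoprime_iff_gcd_eq_one]
      simpa [Int.gcd] using this
    have hρq : (ρ : ℝ) = (ρ.num : ℝ) / q := by
      rw [hq]
      exact_mod_cast (Rat.num_div_den ρ).symm
    obtain ⟨θ, hθ⟩ : ∃ θ : ℝ, θ = γ + (t : ℝ) / M - ρ := ⟨_, rfl⟩
    have hβ : γ + (t : ℝ) / M = (ρ.num : ℝ) / q + θ := by
      rw [hθ, hρq]
      ring
    have hθb : |θ| * (4 * D * q) ≤ 1 := by
      rw [← hθ] at hρ1
      rw [le_div_iff₀ (by positivity)] at hρ1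
      push_cast at hρ1
      have : |θ| * (4 * D * q) ≤ |θ| * ((4 * D + 1) * q) := by
        apply mul_le_mul_of_nonneg_left _ (abs_nonneg _)
        nlinarith
      linarith
    have hθ4 : |θ| ≤ 1 / 4 := by
      rw [le_div_iff₀ (by norm_num)]
      have hD1 : (1 : ℝ) ≤ D := by exact_mod_cast hD
      have h1 : (4 : ℝ) ≤ 4 * D * q := by nlinarith
      calc |θ| * 4 ≤ |θ| * (4 * D * q) := mul_le_mul_of_nonneg_left h1 (abs_nonneg _)
        _ ≤ 1 := hθb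
    have hS := hT N D V q ρ.num θ α w hN hD hDN hq1 hρ2 hcop hθb hα hα1 hw hw0 hwN
    rw [← hg, ← hL, ← hβ] at hS
    have hS2 : ‖Sf (cv α g) N (γ + (t : ℝ) / M)‖ ^ 2 ≤
        2 * (C * L) ^ 2 * (N : ℝ) ^ 2 * (1 / (q : ℝ) ^ 2 * (1 / (1 + N * |θ|)) ^ 2) + 2 * (C * L) ^ 2 * (D : ℝ) ^ 2 := by
      calc ‖Sf (cv α g) N (γ + (t : ℝ) / M)‖ ^ 2 ≤ (C * L * (N / (q * (1 + N * |θ|)) + D)) ^ 2 :=
            pow_le_pow_left₀ (norm_nonneg _) hS 2
        _ = (C * L) ^ 2 * (N / (q * (1 + N * |θ|)) + D) ^ 2 := by ring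
        _ ≤ (C * L) ^ 2 * (2 * (N / (q * (1 + N * |θ|))) ^ 2 + 2 * (D : ℝ) ^ 2) := by
            apply mul_le_mul_of_nonneg_left _ (sq_nonneg _)
            nlinarith [sq_nonneg (N / (q * (1 + N * |θ|)) - (D : ℝ))]
        _ = _ := by
            rw [div_pow, mul_pow, div_pow, one_pow]
            field_simp
    -- the index `i`
    have hx1 : (ρ : ℝ) - γ = (t : ℝ) / M - θ := by
      rw [hθ]
      ring
    have hi0 : 0 ≤ ρ.num - cc q + q := by
      have h1 := abs_le.1 (hccb q)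
      have h2 := abs_le.1 hθ4
      have h3 : (ρ.num : ℝ) = q * ρ := by
        rw [hρq]
        field_simp
      have h4 : (-1 : ℝ) < (ρ.num : ℝ) - cc q + q := by
        have h5 : (ρ.num : ℝ) - cc q = q * ((t : ℝ) / M - θ) + (q * γ - cc q) := by
          rw [← hx1, h3]
          ring
        rw [h5]
        nlinarith [mul_nonneg hq0.le ht0]
      have h5 : (-1 : ℤ) < ρ.num - cc q + q := by exact_mod_cast h4
      omega
    obtain ⟨i, hi⟩ : ∃ i : ℕ, (i : ℤ) = ρ.num - cc q + q := ⟨(ρ.num - cc q + q).toNat, Int.toNat_of_nonneg hi0⟩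
    have hir : (i : ℝ) = ρ.num - cc q + q := by exact_mod_cast hi
    have hi3 : i < 3 * q := by
      have h1 := abs_le.1 (hccb q)
      have h2 := abs_le.1 hθ4
      have h3 : (ρ.num : ℝ) = q * ρ := by
        rw [hρq]
        field_simp
      have h5 : (ρ.num : ℝ) - cc q = q * ((t : ℝ) / M - θ) + (q * γ - cc q) := by
        rw [← hx1, h3]
        ring
      have h6 : (i : ℝ) < 3 * q := by
        rw [hir, h5]
        nlinarith
      exact_mod_cast h6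
    have hxi : xx q i = ρ - γ := by
      rw [hxx]
      simp only
      rw [hir, hρq]
      field_simp
      ring
    have hGt : GG t (xx q i) = ((1 + Y * |θ|) / (1 + N * |θ|)) ^ 2 := by
      rw [hGG]
      simp only
      have : (t : ℝ) / M - xx q i = θ := by
        rw [hxi, hx1]
        ring
      rw [this]
    -- the geometric sum
    have hFt : F t ≤ 7 * KK Y (xx q i) * (1 + Y * |θ|) := by
      have h1 : F t ≤ KK Y ((t : ℝ) / M) := by
        rw [hF]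
        simp only
        have := geo_bound 0 Y (Nat.zero_le _) (M := (Y : ℝ)) (by simp) ((t : ℝ) / M)
        rw [Nat.Ico_zero_eq_range] at this
        exact this
      refine h1.trans ?_
      have h2 := dd_add_ge (ρ - γ) θ
      have h3 : (ρ : ℝ) - γ + θ = (t : ℝ) / M := by rw [hx1]; ring
      rw [h3] at h2
      rw [hxi]
      unfold KK
      have d1 := dd_nonneg ((t : ℝ) / M)
      have d2 := dd_nonneg ((ρ : ℝ) - γ)
      have hpi := Real.pi_lt_d2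
      have hpi0 := Real.pi_pos
      have h4 : 1 + Y * dd ((ρ : ℝ) - γ) ≤ (1 + Y * dd ((t : ℝ) / M)) * (7 * (1 + Y * |θ|)) := by
        have h5 : 0 ≤ Y * |θ| := by positivity
        have h6 : 0 ≤ Y * dd ((t : ℝ) / M) := by positivity
        have h7 : Y * dd ((ρ : ℝ) - γ) ≤ Y * dd ((t : ℝ) / M) + 7 * (Y * |θ|) := by
          have h8 : dd ((ρ : ℝ) - γ) ≤ dd ((t : ℝ) / M) + 7 * |θ| := by
            have : 2 * Real.pi * |θ| ≤ 7 * |θ| := mul_le_mul_of_nonneg_right (by linarith) (abs_nonneg _)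
            linarith
          calc Y * dd ((ρ : ℝ) - γ) ≤ Y * (dd ((t : ℝ) / M) + 7 * |θ|) := mul_le_mul_of_nonneg_left h8 hY0.le
            _ = _ := by ring
        nlinarith [mul_nonneg h5 h6]
      have h5 : 0 < 1 + Y * dd ((t : ℝ) / M) := by positivity
      have h6 : 0 < 1 + Y * dd ((ρ : ℝ) - γ) := by positivity
      have e : 7 * (3 * (Y : ℝ) / (1 + Y * dd ((ρ : ℝ) - γ))) * (1 + Y * |θ|) =
          3 * Y * (7 * (1 + Y * |θ|)) / (1 + Y * dd ((ρ : ℝ) - γ)) := by ring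
      rw [e, div_le_div_iff₀ h5 h6]
      calc 3 * (Y : ℝ) * (1 + Y * dd ((ρ : ℝ) - γ)) ≤ 3 * Y * ((1 + Y * dd ((t : ℝ) / M)) * (7 * (1 + Y * |θ|))) :=
            mul_le_mul_of_nonneg_left h4 (by positivity)
        _ = _ := by ring
    have hF0 : 0 ≤ F t := by rw [hF]; exact norm_nonneg _
    have hF2 : F t ^ 2 ≤ 49 * KK Y (xx q i) ^ 2 * (1 + Y * |θ|) ^ 2 := by
      calc F t ^ 2 ≤ (7 * KK Y (xx q i) * (1 + Y * |θ|)) ^ 2 := pow_le_pow_left₀ hF0 hFt 2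
        _ = _ := by ring
    have hterm : 1 / (q : ℝ) ^ 2 * (1 / (1 + N * |θ|)) ^ 2 * F t ^ 2 ≤
        49 * (1 / (q : ℝ) ^ 2) * KK Y (xx q i) ^ 2 * GG t (xx q i) := by
      rw [hGt]
      calc 1 / (q : ℝ) ^ 2 * (1 / (1 + N * |θ|)) ^ 2 * F t ^ 2 ≤
          1 / (q : ℝ) ^ 2 * (1 / (1 + N * |θ|)) ^ 2 * (49 * KK Y (xx q i) ^ 2 * (1 + Y * |θ|) ^ 2) :=
            mul_le_mul_of_nonneg_left hF2 (by positivity)
        _ = _ := by
            rw [div_pow, div_pow, one_pow]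
            ring
    have hnn : ∀ q' i' : ℕ, 0 ≤ 49 * (1 / (q' : ℝ) ^ 2) * KK Y (xx q' i') ^ 2 * GG t (xx q' i') := by
      intro q' i'
      exact mul_nonneg (by positivity) (hGG0 _ _)
    have hsum : 49 * (1 / (q : ℝ) ^ 2) * KK Y (xx q i) ^ 2 * GG t (xx q i) ≤
        ∑ q ∈ Icc 1 (4 * D), ∑ i ∈ range (3 * q), 49 * (1 / (q : ℝ) ^ 2) * KK Y (xx q i) ^ 2 * GG t (xx q i) := by
      calc _ ≤ ∑ i ∈ range (3 * q), 49 * (1 / (q : ℝ) ^ 2) * KK Y (xx q i) ^ 2 * GG t (xx q i) :=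
            single_le_sum (f := fun i => 49 * (1 / (q : ℝ) ^ 2) * KK Y (xx q i) ^ 2 * GG t (xx q i))
              (fun i' _ => hnn q i') (mem_range.2 hi3)
        _ ≤ _ := single_le_sum (f := fun q => ∑ i ∈ range (3 * q), 49 * (1 / ((q : ℕ) : ℝ) ^ 2) * KK Y (xx q i) ^ 2 *
              GG t (xx q i)) (fun q' _ => sum_nonneg fun i' _ => hnn q' i') (mem_Icc.2 ⟨hq1, hρ2⟩)
    calc ‖Sf (cv α g) N (γ + (t : ℝ) / M)‖ ^ 2 * F t ^ 2 ≤
        (2 * (C * L) ^ 2 * (N : ℝ) ^ 2 * (1 / (q : ℝ) ^ 2 * (1 / (1 + N * |θ|)) ^ 2) + 2 * (C * L) ^ 2 * (D : ℝ) ^ 2) *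
          F t ^ 2 := mul_le_mul_of_nonneg_right hS2 (sq_nonneg _)
      _ = 2 * (C * L) ^ 2 * (N : ℝ) ^ 2 * (1 / (q : ℝ) ^ 2 * (1 / (1 + N * |θ|)) ^ 2 * F t ^ 2) +
          2 * (C * L) ^ 2 * (D : ℝ) ^ 2 * F t ^ 2 := by ring
      _ ≤ _ := by
          apply add_le_add _ le_rfl
          exact mul_le_mul_of_nonneg_left (hterm.trans hsum) (by positivity)
  -- the sum over the frequencies
  have hB : ∑ t ∈ range M, ∑ q ∈ Icc 1 (4 * D), ∑ i ∈ range (3 * q),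
      49 * (1 / (q : ℝ) ^ 2) * KK Y (xx q i) ^ 2 * GG t (xx q i) ≤ 3332 * (216 * ((Y : ℝ) ^ 2 / Q)) := by
    rw [sum_comm]
    have h1 : ∀ q ∈ Icc 1 (4 * D), ∑ t ∈ range M, ∑ i ∈ range (3 * q),
        49 * (1 / (q : ℝ) ^ 2) * KK Y (xx q i) ^ 2 * GG t (xx q i) ≤
        3332 * (108 * (Y : ℝ) ^ 2 * (1 / (Q + q) ^ 2) + 27) := by
      intro q hq
      rw [mem_Icc] at hq
      have hq0 : (0 : ℝ) < q := by exact_mod_cast hq.1
      rw [sum_comm]
      have h2 : ∀ i ∈ range (3 * q), ∑ t ∈ range M, 49 * (1 / (q : ℝ) ^ 2) * KK Y (xx q i) ^ 2 * GG t (xx q i) ≤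
          49 * (1 / (q : ℝ) ^ 2) * KK Y (xx q i) ^ 2 * 68 := by
        intro i _
        rw [← mul_sum]
        apply mul_le_mul_of_nonneg_left _ (by positivity)
        rw [hGG]
        simp only
        have := gsum hY hYN (xx q i)
        rw [← hMd] at this
        exact this
      refine (sum_le_sum h2).trans ?_
      have h3 := ksum (Y := Y) hq.1 γ (cc q) (hccb q)
      have h4 := kzero hY hQ hq.1 hM (cc q) (hccb q)
      calc ∑ i ∈ range (3 * q), 49 * (1 / (q : ℝ) ^ 2) * KK Y (xx q i) ^ 2 * 68 =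
          3332 * (1 / (q : ℝ) ^ 2) * ∑ i ∈ range (3 * q), KK Y (((cc q : ℝ) + i) / q - 1 - γ) ^ 2 := by
            rw [mul_sum]
            refine sum_congr rfl fun i _ => ?_
            rw [hxx]
            ring
        _ ≤ 3332 * (1 / (q : ℝ) ^ 2) * (3 * (36 * (q : ℝ) ^ 2 * (Y : ℝ) ^ 2 * (1 / (Q + q) ^ 2)) + 27 * (q : ℝ) ^ 2) := by
            apply mul_le_mul_of_nonneg_left _ (by positivity)
            linarith
        _ = _ := by
            field_simp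
            ring
    refine (sum_le_sum h1).trans ?_
    rw [← mul_sum, sum_add_distrib, ← mul_sum, sum_const, Nat.card_Icc, nsmul_eq_mul]
    apply mul_le_mul_of_nonneg_left _ (by norm_num)
    have h2 := sum_tail hQ0 (4 * D)
    have h3 : (D : ℝ) ≤ (Y : ℝ) ^ 2 / Q := by
      rw [le_div_iff₀ hQ0]
      exact hDQ
    have h4 : 108 * (Y : ℝ) ^ 2 * ∑ q ∈ Icc 1 (4 * D), 1 / (Q + (q : ℝ)) ^ 2 ≤ 108 * (Y : ℝ) ^ 2 * (1 / Q) :=
      mul_le_mul_of_nonneg_left h2 (by positivity)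
    have h5 : 108 * (Y : ℝ) ^ 2 * (1 / Q) = 108 * ((Y : ℝ) ^ 2 / Q) := by ring
    push_cast [Nat.add_sub_cancel]
    linarith
  have hfin : (M : ℝ) * Wn (cv α g) N Y γ ≤
      2 * (C * L) ^ 2 * (N : ℝ) ^ 2 * (3332 * (216 * ((Y : ℝ) ^ 2 / Q))) + 2 * (C * L) ^ 2 * (D : ℝ) ^ 2 * (M * Y) := by
    rw [hp1]
    have e1 : ∑ t ∈ range M, F t ^ 2 = (M : ℝ) * Y := by
      rw [← hp2, hF]
    calc ∑ t ∈ range M, ‖Sf (cv α g) N (γ + (t : ℝ) / M)‖ ^ 2 * ‖∑ j ∈ range Y, ee (j * ((t : ℝ) / M))‖ ^ 2 =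
        ∑ t ∈ range M, ‖Sf (cv α g) N (γ + (t : ℝ) / M)‖ ^ 2 * F t ^ 2 := by rw [hF]
      _ ≤ ∑ t ∈ range M, (2 * (C * L) ^ 2 * (N : ℝ) ^ 2 * (∑ q ∈ Icc 1 (4 * D), ∑ i ∈ range (3 * q),
            49 * (1 / (q : ℝ) ^ 2) * KK Y (xx q i) ^ 2 * GG t (xx q i)) + 2 * (C * L) ^ 2 * (D : ℝ) ^ 2 * F t ^ 2) :=
          sum_le_sum hone
      _ = 2 * (C * L) ^ 2 * (N : ℝ) ^ 2 * (∑ t ∈ range M, ∑ q ∈ Icc 1 (4 * D), ∑ i ∈ range (3 * q),
            49 * (1 / (q : ℝ) ^ 2) * KK Y (xx q i) ^ 2 * GG t (xx q i)) +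
            2 * (C * L) ^ 2 * (D : ℝ) ^ 2 * (M * Y) := by
          rw [sum_add_distrib, ← mul_sum, ← mul_sum, e1]
      _ ≤ _ := by
          apply add_le_add _ le_rfl
          exact mul_le_mul_of_nonneg_left hB (by positivity)
  have hDQ3 : (D : ℝ) ^ 2 * Y ≤ N * (Y : ℝ) ^ 2 / Q := by
    rw [le_div_iff₀ hQ0]
    nlinarith
  have h7 : Wn (cv α g) N Y γ ≤ 2 * (C * L) ^ 2 * (719712 * (N * (Y : ℝ) ^ 2 / Q)) + 2 * (C * L) ^ 2 * (N * (Y : ℝ) ^ 2 / Q) := by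
    have h8 : (M : ℝ) * Wn (cv α g) N Y γ ≤
        M * (2 * (C * L) ^ 2 * (719712 * (N * (Y : ℝ) ^ 2 / Q)) + 2 * (C * L) ^ 2 * (N * (Y : ℝ) ^ 2 / Q)) := by
      refine hfin.trans ?_
      have e1 : 2 * (C * L) ^ 2 * (N : ℝ) ^ 2 * (3332 * (216 * ((Y : ℝ) ^ 2 / Q))) ≤
          M * (2 * (C * L) ^ 2 * (719712 * (N * (Y : ℝ) ^ 2 / Q))) := by
        have : 2 * (C * L) ^ 2 * (N : ℝ) ^ 2 * (3332 * (216 * ((Y : ℝ) ^ 2 / Q))) =
            N * (2 * (C * L) ^ 2 * (719712 * (N * (Y : ℝ) ^ 2 / Q))) := by ring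
        rw [this]
        exact mul_le_mul_of_nonneg_right hNM (by positivity)
      have e2 : 2 * (C * L) ^ 2 * (D : ℝ) ^ 2 * (M * Y) ≤ M * (2 * (C * L) ^ 2 * (N * (Y : ℝ) ^ 2 / Q)) := by
        have : 2 * (C * L) ^ 2 * (D : ℝ) ^ 2 * (M * Y) = M * (2 * (C * L) ^ 2 * ((D : ℝ) ^ 2 * Y)) := by ring
        rw [this]
        gcongr
      rw [mul_add]
      exact add_le_add e1 e2
    exact le_of_mul_le_mul_left h8 hM0
  refine h7.trans ?_
  have h9 : (C * L) ^ 2 ≤ C ^ 2 * (1 + L) ^ 2 := by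
    rw [mul_pow]
    gcongr
    linarith
  have h10 : 0 ≤ N * (Y : ℝ) ^ 2 / Q := by positivity
  calc 2 * (C * L) ^ 2 * (719712 * (N * (Y : ℝ) ^ 2 / Q)) + 2 * (C * L) ^ 2 * (N * (Y : ℝ) ^ 2 / Q) =
      (C * L) ^ 2 * (1439426 * (N * (Y : ℝ) ^ 2 / Q)) := by ring
    _ ≤ C ^ 2 * (1 + L) ^ 2 * (1600000 * (N * (Y : ℝ) ^ 2 / Q)) := by
        apply mul_le_mul h9 _ (by positivity) (by positivity)
        linarith
    _ = _ := by ring

end Pool.Agent.V5helper51.MW
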