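import Pool.Agent.V5helper51.MW.Mus
import Pool.Agent.V5helper51.MW.Par
import Pool.Agent.V5helper51.MW.T1
import Pool.Agent.V5helper12.MW.T2
import Pool.Agent.V5helper21.MW.Fam
import Pool.Agent.V5helper22.MW.MinZ
import Pool.Agent.V5helper44.MW.MIN
import Pool.Agent.V5helper59.MW.Elm
import Pool.Agent.V5helper59.MW.Dec
import Pool.Agent.V5helper59.MW.Mwa
import Pool.Agent.V5helper59.MW.Wmu

/-!
# Project MW: assembly

Contributions: T2 helper12, FAM helper21, MINZ helper22, MIN helper44, ELM, SUB, DEC, WMU, MWA helper59, the rest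
helper51. Unconditional: `mwm_all`, `mwl_all` (windows of the length `N^(1/3) log^C N` at all frequencies), `mus_all`,
`las_all` (correlations along families in such windows, arbitrary weights).
-/

set_option autoImplicit false

namespace Pool.Agent.V5helper51.MW

theorem t1_all : S_T1 := t1 par t1a

theorem min_all : S_MIN :=
  Pool.Agent.V5helper44.MW.min_ Pool.Agent.V5helper59.MW.elm1 Pool.Agent.V5helper59.MW.elm2
    Pool.Agent.V5helper59.MW.elm3 t1_all Pool.Agent.V5helper12.MW.t2

theorem minz_all : Pool.Agent.V5helper59.MW.S_MINZ1 :=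
  Pool.Agent.V5helper22.MW.minz1 Pool.Agent.V5helper59.MW.elm1 t1_all

theorem mwm_all : S_MWM :=
  Pool.Agent.V5helper59.MW.mwm Pool.Agent.V5helper59.MW.sub Pool.Agent.V5helper59.MW.dec min_all
    Pool.Agent.V5helper59.MW.wmu

theorem mwl_all : S_MWL :=
  Pool.Agent.V5helper59.MW.mwl Pool.Agent.V5helper59.MW.sub Pool.Agent.V5helper59.MW.dec min_all minz_all

theorem mus_all : S_MUS := mus mwm_all Pool.Agent.V5helper21.MW.fam

theorem las_all : S_LAS := las mwl_all Pool.Agent.V5helper21.MW.fam

end Pool.Agent.V5helper51.MW
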