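import Pool.Agent.V5helper51.MW.Stm

/-! # First moments along families in short intervals -/

set_option autoImplicit false

namespace Pool.Agent.V5helper51.MW

open Finset
open Pool.Agent.H807R2.Dav (ee norm_ee)
open Pool.Agent.V5helper51.CM (Sf Bw)
open Pool.Agent.R460.SQ (DZ norm_DZ)
open Pool.Agent.H373R2.T7 (lamz Vz pz energy exI lamI lamzI lamz_nonneg Vz_inv_small)

/-- the first moment over a family -/
lemma fam_core {p B : ℕ} {K : ℝ} (hK1 : 1 ≤ K) (hK : ∀ (N Y A x : ℕ) (F G c : ℕ → ℂ) (s : ℕ → ℤ) (c₀ : ℤ) (R η S2 : ℝ),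
  1 ≤ Y → Y ≤ N → 1 ≤ x → (∀ γ, Wn F N Y γ ≤ R * (N * (Y : ℝ) ^ 2)) → (∀ m ∈ Icc 1 x, |s m - c₀| ≤ B * Y) → |c₀| ≤ B * N →
  A ≤ B * N → (∀ m, ‖c m‖ ≤ 1) → ∑ n ∈ Icc 1 N, ‖F n‖ ^ 2 ≤ S2 * N → 0 < η → 0 ≤ R →
  ‖∑ a ∈ Icc 1 A, ∑ m ∈ Icc 1 x, G a * c m * fN F N ((a : ℤ) + s m)‖ ^ 2 ≤
    K * (∑ a ∈ Icc 1 A, ‖G a‖ ^ 2) * (N * (x : ℝ) ^ 2) *
      (R * ((energy p x s : ℝ) * Y / (x : ℝ) ^ (2 * p)) / η ^ (2 * p) + η ^ 2 * S2))
    {N Y A x : ℕ} {F g : ℕ → ℂ} {s : ℕ → ℤ} {c₀ : ℤ} {L S2 G2 : ℝ} {U C V : ℕ} (hL : 1 ≤ L)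
    (hY : 1 ≤ Y) (hYN : Y ≤ N) (hx : 1 ≤ x) (hW : ∀ γ, Wn F N Y γ ≤ 1 / L ^ U * (N * (Y : ℝ) ^ 2))
    (hs : ∀ m ∈ Icc 1 x, |s m - c₀| ≤ B * Y) (hc₀ : |c₀| ≤ B * N) (hA : A ≤ B * N)
    (hE : (energy p x s : ℝ) * Y ≤ L ^ C * (x : ℝ) ^ (2 * p))
    (hF : ∑ n ∈ Icc 1 N, ‖F n‖ ^ 2 ≤ S2 * N) (hS2 : 0 ≤ S2) (hg : ∑ a ∈ Icc 1 A, ‖g a‖ ^ 2 ≤ G2) :
    (∑ m ∈ Icc 1 x, ‖∑ a ∈ Icc 1 A, g a * fN F N ((a : ℤ) + s m)‖) ^ 2 ≤
      K * G2 * (N * (x : ℝ) ^ 2) * (L ^ C * L ^ (V * (2 * p)) / L ^ U + S2 / L ^ (2 * V)) := by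
  obtain ⟨S, hS⟩ : ∃ S : ℕ → ℂ, S = fun m => ∑ a ∈ Icc 1 A, g a * fN F N ((a : ℤ) + s m) := ⟨_, rfl⟩
  obtain ⟨c, hc⟩ : ∃ c : ℕ → ℂ, c = fun m => (starRingEnd ℂ) (S m) / ‖S m‖ := ⟨_, rfl⟩
  have hc1 : ∀ m, ‖c m‖ ≤ 1 := by
    intro m
    rw [hc]
    simp only [norm_div, RCLike.norm_conj, Complex.norm_real, norm_norm]
    exact div_self_le_one _
  have hL0 : 0 < L := by linarith
  have hx0 : (0 : ℝ) < x := by exact_mod_cast hx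
  have key := hK N Y A x F g c s c₀ (1 / L ^ U) (1 / L ^ V) S2 hY hYN hx hW hs hc₀ hA hc1 hF (by positivity)
    (by positivity)
  have heq : ∑ a ∈ Icc 1 A, ∑ m ∈ Icc 1 x, g a * c m * fN F N ((a : ℤ) + s m) =
      ((∑ m ∈ Icc 1 x, ‖S m‖ : ℝ) : ℂ) := by
    rw [sum_comm]
    push_cast
    apply sum_congr rfl
    intro m _
    have e1 : ∑ a ∈ Icc 1 A, g a * c m * fN F N ((a : ℤ) + s m) = c m * S m := by
      rw [hS, mul_sum]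
      apply sum_congr rfl
      intro a _
      ring
    rw [e1, hc]
    simp only
    by_cases h0 : ‖S m‖ = 0
    · rw [norm_eq_zero.1 h0]; simp
    · have h0' : ((‖S m‖ : ℝ) : ℂ) ≠ 0 := by exact_mod_cast h0
      rw [div_mul_eq_mul_div, mul_comm, Complex.mul_conj', pow_two]
      field_simp
  rw [heq, Complex.norm_real, Real.norm_of_nonneg (sum_nonneg fun _ _ => norm_nonneg _)] at key
  have e0 : ∑ m ∈ Icc 1 x, ‖∑ a ∈ Icc 1 A, g a * fN F N ((a : ℤ) + s m)‖ = ∑ m ∈ Icc 1 x, ‖S m‖ := by rw [hS]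
  rw [e0]
  refine key.trans ?_
  have h1 : (energy p x s : ℝ) * Y / (x : ℝ) ^ (2 * p) ≤ L ^ C := by
    rw [div_le_iff₀ (by positivity)]
    exact hE
  have h0 : 0 ≤ (energy p x s : ℝ) * Y / (x : ℝ) ^ (2 * p) := by positivity
  have h2 : 1 / L ^ U * ((energy p x s : ℝ) * Y / (x : ℝ) ^ (2 * p)) / (1 / L ^ V) ^ (2 * p) + (1 / L ^ V) ^ 2 * S2 ≤
      L ^ C * L ^ (V * (2 * p)) / L ^ U + S2 / L ^ (2 * V) := by
    apply add_le_add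
    · calc 1 / L ^ U * ((energy p x s : ℝ) * Y / (x : ℝ) ^ (2 * p)) / (1 / L ^ V) ^ (2 * p) ≤
          1 / L ^ U * (L ^ C) / (1 / L ^ V) ^ (2 * p) := by gcongr
        _ = _ := by
            rw [div_pow, one_pow, ← pow_mul]
            field_simp
    · rw [div_pow, one_pow, ← pow_mul, mul_comm V 2]
      apply le_of_eq
      ring
  have h3 : 0 ≤ 1 / L ^ U * ((energy p x s : ℝ) * Y / (x : ℝ) ^ (2 * p)) / (1 / L ^ V) ^ (2 * p) +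
      (1 / L ^ V) ^ 2 * S2 := by positivity
  have h4 : (0 : ℝ) ≤ ∑ a ∈ Icc 1 A, ‖g a‖ ^ 2 := sum_nonneg fun _ _ => sq_nonneg _
  have hK0 : 0 ≤ K := by linarith
  have h5 : 0 ≤ G2 := h4.trans hg
  apply mul_le_mul _ h2 h3 (by positivity)
  gcongr

/-- the arguments lie in the range -/
lemma arg_le {B N Y A N' : ℕ} {s : ℕ → ℤ} {c₀ : ℤ} {m a : ℕ} (hN' : N' = 4 * ((B + 1) * N)) (hYN : Y ≤ N) (hA : A ≤ B * N)
    (ha : a ≤ A) (hc₀ : |c₀| ≤ B * N) (hs : |s m - c₀| ≤ B * Y) : (a : ℤ) + s m ≤ N' := by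
  have h1 := abs_le.1 hc₀
  have h2 := abs_le.1 hs
  have h3 : (a : ℤ) ≤ B * N := by exact_mod_cast ha.trans hA
  have h4 : (B : ℤ) * Y ≤ B * N := by exact_mod_cast Nat.mul_le_mul_left B hYN
  have h5 : (N' : ℤ) = 4 * ((B + 1) * N) := by rw [hN']; push_cast; ring
  have h6 : (0 : ℤ) ≤ B * N := by positivity
  have h7 : (0 : ℤ) ≤ N := by positivity
  rw [h5]
  nlinarith [h1.2, h2.2]

/-- the parameters `N` and `N' = 4 (B + 1) N` -/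
lemma para (B C₁ : ℕ) : ∃ N₀ : ℕ, ∀ N : ℕ, N₀ ≤ N → 1 ≤ Real.log N ∧
    Real.log N ≤ Real.log (4 * ((B + 1) * N) : ℕ) ∧ Real.log (4 * ((B + 1) * N) : ℕ) ≤ 2 * Real.log N ∧
    ((4 * ((B + 1) * N) : ℕ) : ℝ) ^ (1 / 3 : ℝ) * Real.log (4 * ((B + 1) * N) : ℕ) ^ C₁ ≤
      (N : ℝ) ^ (1 / 3 : ℝ) * Real.log N ^ (C₁ + 1) := by
  obtain ⟨N₁, h1⟩ := Filter.eventually_atTop.1 (Pool.Agent.Y614.GJ.Core.ev_log 1 (s := 1) (by norm_num)
    (4 * (B + 1) * 2 ^ C₁ + Real.log (4 * (B + 1))))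
  refine ⟨N₁ + 1, fun N hN => ?_⟩
  obtain ⟨g1, _⟩ := h1 N (by omega)
  have hN0 : (0 : ℝ) < N := by exact_mod_cast (by omega : 0 < N)
  have hB0 : (0 : ℝ) ≤ B := Nat.cast_nonneg _
  have h4 : (1 : ℝ) ≤ 4 * (B + 1) := by linarith
  have hlog4 : 0 ≤ Real.log (4 * ((B : ℝ) + 1)) := Real.log_nonneg h4
  have h2C : (1 : ℝ) ≤ 2 ^ C₁ := one_le_pow₀ (by norm_num)
  have hcast : ((4 * ((B + 1) * N) : ℕ) : ℝ) = (4 * ((B : ℝ) + 1)) * N := by push_cast; ring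
  obtain ⟨L, hL⟩ : ∃ L, L = Real.log (N : ℝ) := ⟨_, rfl⟩
  rw [← hL] at g1
  have hprod : (4 * ((B : ℝ) + 1)) * 2 ^ C₁ ≤ L := by linarith
  have hL1 : 1 ≤ L := by nlinarith
  have hlogB : Real.log (4 * ((B : ℝ) + 1)) ≤ L := by
    have : 0 ≤ 4 * ((B : ℝ) + 1) * 2 ^ C₁ := by positivity
    linarith
  rw [hcast, Real.log_mul (by positivity) hN0.ne', ← hL]
  refine ⟨hL1, by linarith, by linarith, ?_⟩
  rw [Real.mul_rpow (by positivity) hN0.le]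
  have h5 : (4 * ((B : ℝ) + 1)) ^ (1 / 3 : ℝ) ≤ 4 * (B + 1) := by
    calc (4 * ((B : ℝ) + 1)) ^ (1 / 3 : ℝ) ≤ (4 * ((B : ℝ) + 1)) ^ (1 : ℝ) :=
          Real.rpow_le_rpow_of_exponent_le h4 (by norm_num)
      _ = _ := Real.rpow_one _
  have h6 : (Real.log (4 * ((B : ℝ) + 1)) + L) ^ C₁ ≤ (2 * L) ^ C₁ :=
    pow_le_pow_left₀ (by linarith) (by linarith) _
  have hN3 : 0 ≤ (N : ℝ) ^ (1 / 3 : ℝ) := by positivity
  calc (4 * ((B : ℝ) + 1)) ^ (1 / 3 : ℝ) * (N : ℝ) ^ (1 / 3 : ℝ) * (Real.log (4 * ((B : ℝ) + 1)) + L) ^ C₁ ≤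
      (4 * (B + 1)) * (N : ℝ) ^ (1 / 3 : ℝ) * (2 * L) ^ C₁ := by gcongr
    _ = (N : ℝ) ^ (1 / 3 : ℝ) * L ^ C₁ * ((4 * (B + 1)) * 2 ^ C₁) := by
        rw [mul_pow]
        ring
    _ ≤ (N : ℝ) ^ (1 / 3 : ℝ) * L ^ C₁ * L := mul_le_mul_of_nonneg_left hprod (by positivity)
    _ = _ := by ring

/-- the final comparison -/
lemma fin_le {K κ L N x W : ℝ} {C T U V p : ℕ} {M : ℝ} (hK : 1 ≤ K) (hL1 : 1 ≤ L) (hN : 0 < N) (hx : 0 < x)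
    (hκ : 0 ≤ κ) (hV : V = U + T + 2) (hM2 : M ≤ κ * N) (hLK : K * κ * 17 ≤ L)
    (hW0 : 0 ≤ W)
    (hW : W ^ 2 ≤ K * (N * L ^ T) * (M * x ^ 2) *
      (L ^ C * L ^ (V * (2 * p)) / L ^ (C + V * (2 * p) + 2 * V) + 16 * L ^ 2 / L ^ (2 * V))) :
    W ≤ N * x / L ^ U := by
  have hL0 : 0 < L := by linarith
  have h1 : L ^ C * L ^ (V * (2 * p)) / L ^ (C + V * (2 * p) + 2 * V) = 1 / L ^ (2 * V) := by
    rw [pow_add, pow_add]
    field_simp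
  rw [h1] at hW
  have h2 : 1 / L ^ (2 * V) + 16 * L ^ 2 / L ^ (2 * V) ≤ 17 * L ^ 2 / L ^ (2 * V) := by
    rw [← add_div]
    apply div_le_div_of_nonneg_right _ (by positivity)
    have : 1 ≤ L ^ 2 := one_le_pow₀ hL1
    linarith
  have h3 : W ^ 2 ≤ (N * x / L ^ U) ^ 2 := by
    calc W ^ 2 ≤ K * (N * L ^ T) * (M * x ^ 2) * (1 / L ^ (2 * V) + 16 * L ^ 2 / L ^ (2 * V)) := hW
      _ ≤ K * (N * L ^ T) * ((κ * N) * x ^ 2) * (17 * L ^ 2 / L ^ (2 * V)) := by gcongr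
      _ = (K * κ * 17) * (N * x) ^ 2 * (L ^ (T + 2) / L ^ (2 * V)) := by
          rw [pow_add L T 2]
          ring
      _ ≤ L * (N * x) ^ 2 * (L ^ (T + 2) / L ^ (2 * V)) := by gcongr
      _ = (N * x) ^ 2 * (L ^ (T + 3) / L ^ (2 * V)) := by ring
      _ ≤ (N * x) ^ 2 * (1 / L ^ (2 * U)) := by
          apply mul_le_mul_of_nonneg_left _ (by positivity)
          rw [div_le_div_iff₀ (by positivity) (by positivity), one_mul, ← pow_add]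
          apply pow_le_pow_right₀ hL1
          omega
      _ = _ := by
          rw [div_pow, ← pow_mul, mul_comm U 2]
          ring
  exact (pow_le_pow_iff_left₀ hW0 (by positivity) two_ne_zero).1 h3

/-- **MUS** -/
theorem mus (hMWM : S_MWM) (hFAM : S_FAM) : S_MUS := by
  intro p B C T U hp
  obtain ⟨K, hK1, hK⟩ := hFAM p B hp
  obtain ⟨V, hV⟩ : ∃ V, V = U + T + 2 := ⟨_, rfl⟩
  obtain ⟨C₁, N₁, h1⟩ := hMWM (C + V * (2 * p) + 2 * V)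
  obtain ⟨N₂, h2⟩ := para B C₁
  obtain ⟨N₃, h3⟩ := Filter.eventually_atTop.1 (Pool.Agent.Y614.GJ.Core.ev_log 1 (s := 1) (by norm_num)
    (K * (4 * (B + 1)) * 17))
  refine ⟨C₁ + 1, N₁ + N₂ + N₃ + 3, ?_⟩
  intro N hN Y hY hYN x s c₀ hc₀ hs hE A hA g hg
  obtain ⟨g1, g2, g3, g4⟩ := h2 N (by omega)
  obtain ⟨g5, _⟩ := h3 N (by omega)
  obtain ⟨L, hL⟩ : ∃ L, L = Real.log (N : ℝ) := ⟨_, rfl⟩
  obtain ⟨N', hN'⟩ : ∃ N', N' = 4 * ((B + 1) * N) := ⟨_, rfl⟩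
  rw [← hN', ← hL] at g2 g3 g4
  rw [← hL] at g1 g5 hY hE hg ⊢
  have hL0 : 0 < L := by linarith
  have hN1 : (1 : ℝ) ≤ N := by exact_mod_cast (by omega : 1 ≤ N)
  have hN0 : (0 : ℝ) < N := lt_of_lt_of_le one_pos hN1
  rcases Nat.eq_zero_or_pos x with rfl | hx
  · simp
  have hx0 : (0 : ℝ) < x := by exact_mod_cast hx
  have hNN' : N ≤ N' := by
    rw [hN']
    nlinarith [Nat.zero_le (B * N)]
  have hY1 : 1 ≤ Y := by
    have : (1 : ℝ) ≤ Y := by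
      refine le_trans ?_ hY
      exact one_le_mul_of_one_le_of_one_le (Real.one_le_rpow hN1 (by norm_num)) (one_le_pow₀ g1)
    exact_mod_cast this
  have hN'r : (N' : ℝ) = 4 * (B + 1) * N := by
    rw [hN']
    push_cast
    ring
  have hW : ∀ γ, Wn mu N' Y γ ≤ 1 / L ^ (C + V * (2 * p) + 2 * V) * (N' * (Y : ℝ) ^ 2) := by
    intro γ
    have h5 := h1 N' (by omega) Y (g4.trans hY) (hYN.trans hNN') γ
    refine h5.trans ?_
    rw [div_mul_eq_mul_div, one_mul]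
    apply div_le_div_of_nonneg_left (by positivity) (by positivity)
    exact pow_le_pow_left₀ hL0.le g2 _
  have hF : ∑ n ∈ Icc 1 N', ‖mu n‖ ^ 2 ≤ (16 * L ^ 2) * N' := by
    have h6 : ∀ n ∈ Icc 1 N', ‖mu n‖ ^ 2 ≤ 16 * L ^ 2 := by
      intro n _
      have h7 : ‖mu n‖ ≤ 1 := by
        unfold mu
        rw [Complex.norm_intCast]
        exact_mod_cast ArithmeticFunction.abs_moebius_le_one
      have h8 : ‖mu n‖ ^ 2 ≤ 1 := pow_le_one₀ (norm_nonneg _) h7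
      have h9 : 1 ≤ L ^ 2 := one_le_pow₀ g1
      linarith
    refine (sum_le_sum h6).trans ?_
    rw [sum_const, Nat.card_Icc, nsmul_eq_mul]
    simp only [Nat.add_sub_cancel]
    rw [mul_comm]
  have hcore := fam_core (V := V) hK1 hK g1 hY1 (hYN.trans hNN') hx hW hs (hc₀.trans (by
      have : (B : ℤ) * N ≤ B * N' := by exact_mod_cast Nat.mul_le_mul_left B hNN'
      exact this)) (hA.trans (Nat.mul_le_mul_left B hNN')) hE hF (by positivity) hg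
  have heq : ∑ m ∈ Icc 1 x, ‖∑ a ∈ Icc 1 A, g a * fN mu N' ((a : ℤ) + s m)‖ =
      ∑ m ∈ Icc 1 x, ‖∑ a ∈ Icc 1 A, g a * exI mu ((a : ℤ) + s m)‖ := by
    refine sum_congr rfl fun m hm => ?_
    congr 1
    refine sum_congr rfl fun a ha => ?_
    congr 1
    unfold fN exI
    rw [mem_Icc] at ha
    have h5 := arg_le hN' hYN hA ha.2 hc₀ (hs m hm)
    by_cases h6 : 1 ≤ (a : ℤ) + s m
    · rw [if_pos h6, if_pos ⟨h6, h5⟩]
    · rw [if_neg h6, if_neg (fun h => h6 h.1)]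
  rw [heq] at hcore
  refine fin_le (M := N') (κ := 4 * (B + 1)) hK1 g1 hN0 hx0 (by positivity) hV (le_of_eq hN'r)
    g5 (sum_nonneg fun _ _ => norm_nonneg _) hcore

/-- **LAS** -/
theorem las (hMWL : S_MWL) (hFAM : S_FAM) : S_LAS := by
  intro p B C T U hp
  obtain ⟨K, hK1, hK⟩ := hFAM p B hp
  obtain ⟨V, hV⟩ : ∃ V, V = U + T + 2 := ⟨_, rfl⟩
  obtain ⟨C₁, B₁, h1⟩ := hMWL (C + V * (2 * p) + 2 * V)
  refine ⟨C₁ + 1, B₁ + 1, fun E => ?_⟩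
  obtain ⟨N₁, h1⟩ := h1 E
  obtain ⟨N₂, h2⟩ := para B C₁
  obtain ⟨N₃, h3⟩ := Filter.eventually_atTop.1 (Pool.Agent.Y614.GJ.Core.ev_log 1 (s := 1) (by norm_num)
    (K * (4 * (B + 1)) * 17 + 2 ^ B₁))
  obtain ⟨N₄, h4⟩ := Vz_inv_small E
  refine ⟨N₁ + N₂ + N₃ + N₄ + 3, ?_⟩
  intro N hN Y hY hYN x s c₀ hc₀ hs hE A hA z hz1 hz2 g hg
  obtain ⟨g1, g2, g3, g4⟩ := h2 N (by omega)
  obtain ⟨g5, _⟩ := h3 N (by omega)
  obtain ⟨L, hL⟩ : ∃ L, L = Real.log (N : ℝ) := ⟨_, rfl⟩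
  obtain ⟨N', hN'⟩ : ∃ N', N' = 4 * ((B + 1) * N) := ⟨_, rfl⟩
  rw [← hN', ← hL] at g2 g3 g4
  have hz1' : 1 ≤ z := by
    have : (1 : ℝ) ≤ z := (one_le_pow₀ g1).trans hz1
    exact_mod_cast this
  have g6 := h4 N (by omega) z hz1' hz2
  rw [← hL] at g1 g5 g6 hY hE hg hz1 hz2 ⊢
  have hL0 : 0 < L := by linarith
  have hN1 : (1 : ℝ) ≤ N := by exact_mod_cast (by omega : 1 ≤ N)
  have hN0 : (0 : ℝ) < N := lt_of_lt_of_le one_pos hN1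
  have hB0 : (0 : ℝ) ≤ B := Nat.cast_nonneg _
  have hK0 : 0 ≤ K := by linarith
  have hKB : 0 ≤ K * (4 * (B + 1)) * 17 := by positivity
  have h2B : (0 : ℝ) ≤ 2 ^ B₁ := by positivity
  rcases Nat.eq_zero_or_pos x with rfl | hx
  · simp
  have hx0 : (0 : ℝ) < x := by exact_mod_cast hx
  have hNN' : N ≤ N' := by
    rw [hN']
    nlinarith [Nat.zero_le (B * N)]
  have hY1 : 1 ≤ Y := by
    have : (1 : ℝ) ≤ Y := by
      refine le_trans ?_ hY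
      exact one_le_mul_of_one_le_of_one_le (Real.one_le_rpow hN1 (by norm_num)) (one_le_pow₀ g1)
    exact_mod_cast this
  have hN'r : (N' : ℝ) = 4 * (B + 1) * N := by
    rw [hN']
    push_cast
    ring
  have hzl : Real.log N' ^ B₁ ≤ z := by
    calc Real.log N' ^ B₁ ≤ (2 * L) ^ B₁ := pow_le_pow_left₀ (by linarith) g3 _
      _ = 2 ^ B₁ * L ^ B₁ := mul_pow _ _ _
      _ ≤ L * L ^ B₁ := by
          apply mul_le_mul_of_nonneg_right _ (by positivity)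
          linarith
      _ = L ^ (B₁ + 1) := by ring
      _ ≤ z := hz1
  have hzu : (z : ℝ) ≤ Real.log N' ^ E := hz2.trans (pow_le_pow_left₀ hL0.le g2 _)
  have hW : ∀ γ, Wn (DZ z) N' Y γ ≤ 1 / L ^ (C + V * (2 * p) + 2 * V) * (N' * (Y : ℝ) ^ 2) := by
    intro γ
    have h5 := h1 N' (by omega) z hzl hzu (g6.trans g2) Y (g4.trans hY) (hYN.trans hNN') γ
    refine h5.trans ?_
    rw [div_mul_eq_mul_div, one_mul]
    apply div_le_div_of_nonneg_left (by positivity) (by positivity)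
    exact pow_le_pow_left₀ hL0.le g2 _
  have hF : ∑ n ∈ Icc 1 N', ‖DZ z n‖ ^ 2 ≤ (16 * L ^ 2) * N' := by
    have h6 : ∀ n ∈ Icc 1 N', ‖DZ z n‖ ^ 2 ≤ 16 * L ^ 2 := by
      intro n hn
      rw [mem_Icc] at hn
      have h7 : ‖DZ z n‖ ≤ 2 * L := by
        rw [norm_DZ]
        have k1 : ArithmeticFunction.vonMangoldt n ≤ 2 * L := by
          refine ArithmeticFunction.vonMangoldt_le_log.trans (le_trans ?_ g3)
          exact Real.log_le_log (by exact_mod_cast hn.1) (by exact_mod_cast hn.2)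
        have k2 : (0 : ℝ) ≤ ArithmeticFunction.vonMangoldt n := ArithmeticFunction.vonMangoldt_nonneg
        have k3 := lamz_nonneg z n
        have k4 : lamz z n ≤ L := by
          unfold lamz
          split_ifs
          · exact g6
          · exact hL0.le
        rw [abs_le]
        constructor <;> linarith
      calc ‖DZ z n‖ ^ 2 ≤ (2 * L) ^ 2 := pow_le_pow_left₀ (norm_nonneg _) h7 2
        _ = 4 * L ^ 2 := by ring
        _ ≤ 16 * L ^ 2 := by nlinarith [sq_nonneg L]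
    refine (sum_le_sum h6).trans ?_
    rw [sum_const, Nat.card_Icc, nsmul_eq_mul]
    simp only [Nat.add_sub_cancel]
    rw [mul_comm]
  have hcore := fam_core (V := V) hK1 hK g1 hY1 (hYN.trans hNN') hx hW hs (hc₀.trans (by
      have : (B : ℤ) * N ≤ B * N' := by exact_mod_cast Nat.mul_le_mul_left B hNN'
      exact this)) (hA.trans (Nat.mul_le_mul_left B hNN')) hE hF (by positivity) hg
  have heq : ∑ m ∈ Icc 1 x, ‖∑ a ∈ Icc 1 A, g a * fN (DZ z) N' ((a : ℤ) + s m)‖ =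
      ∑ m ∈ Icc 1 x, ‖∑ a ∈ Icc 1 A, g a * ((lamI (a + s m) - lamzI z (a + s m) : ℝ) : ℂ)‖ := by
    refine sum_congr rfl fun m hm => ?_
    congr 1
    refine sum_congr rfl fun a ha => ?_
    congr 1
    unfold fN lamI lamzI DZ
    rw [mem_Icc] at ha
    have h5 := arg_le hN' hYN hA ha.2 hc₀ (hs m hm)
    by_cases h6 : 1 ≤ (a : ℤ) + s m
    · rw [if_pos h6, if_pos h6, if_pos ⟨h6, h5⟩]
    · rw [if_neg h6, if_neg h6, if_neg (fun h => h6 h.1)]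
      simp
  rw [heq] at hcore
  refine fin_le (M := N') (κ := 4 * (B + 1)) hK1 g1 hN0 hx0 (by positivity) hV (le_of_eq hN'r)
    (by linarith) (sum_nonneg fun _ _ => norm_nonneg _) hcore

end Pool.Agent.V5helper51.MW
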