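import Pool.Agent.V5helper51.MW.Stm

/-! # Type I sums: the pointwise bound -/

set_option autoImplicit false

namespace Pool.Agent.V5helper51.MW

open Finset
open Pool.Agent.H807R2.Dav (ee norm_ee ee_add ee_add_int ee_int KK dd KK_nonneg KK_le KK_le' geo_bound vino
  sum_inv_range dd_nonneg dd_neg dd_add_int dd_ge dd_add_ge)
open Pool.Agent.V5helper51.CM (Sf Bw)

lemma sum_div_swap (N : ℕ) (F : ℕ → ℕ → ℂ) :
    ∑ l ∈ Icc 1 N, ∑ d ∈ l.divisors, F d (l / d) = ∑ d ∈ Icc 1 N, ∑ k ∈ Icc 1 (N / d), F d k := by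
  rw [sum_sigma', sum_sigma']
  refine sum_bij' (fun x _ => ⟨x.2, x.1 / x.2⟩) (fun x _ => ⟨x.1 * x.2, x.1⟩) ?_ ?_ ?_ ?_ ?_
  · rintro ⟨l, d⟩ h
    rw [mem_sigma, mem_Icc, Nat.mem_divisors] at h
    rw [mem_sigma, mem_Icc, mem_Icc]
    obtain ⟨⟨h1, h2⟩, h3, h4⟩ := h
    dsimp only at h1 h2 h3 h4 ⊢
    have h5 := Nat.le_of_dvd (by omega) h3
    have h6 : 0 < d := Nat.pos_of_dvd_of_pos h3 (by omega)
    exact ⟨⟨h6, h5.trans h2⟩, Nat.div_pos h5 h6, Nat.div_le_div_right h2⟩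
  · rintro ⟨d, k⟩ h
    rw [mem_sigma, mem_Icc, mem_Icc] at h
    obtain ⟨⟨h1, h2⟩, h3, h4⟩ := h
    rw [mem_sigma, mem_Icc, Nat.mem_divisors]
    dsimp only at h1 h2 h3 h4 ⊢
    have h5 : d * k ≤ N := by
      rw [Nat.le_div_iff_mul_le (by omega)] at h4
      rw [mul_comm]
      exact h4
    have h6 : 0 < d * k := Nat.mul_pos (by omega) (by omega)
    exact ⟨⟨h6, h5⟩, Dvd.intro k rfl, by omega⟩
  · rintro ⟨l, d⟩ h
    rw [mem_sigma, mem_Icc, Nat.mem_divisors] at h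
    obtain ⟨⟨h1, h2⟩, h3, h4⟩ := h
    dsimp only at h1 h2 h3 h4 ⊢
    rw [Nat.mul_div_cancel' h3]
  · rintro ⟨d, k⟩ h
    rw [mem_sigma, mem_Icc, mem_Icc] at h
    obtain ⟨⟨h1, h2⟩, h3, h4⟩ := h
    dsimp only at h1 h2 h3 h4 ⊢
    rw [Nat.mul_div_cancel_left k (by omega)]
  · rintro ⟨l, d⟩ _
    rfl

lemma Sf_cv (α g : ℕ → ℂ) {N D : ℕ} (hDN : D ≤ N) (hα : ∀ d, α d ≠ 0 → 1 ≤ d ∧ d ≤ D) (β : ℝ) :
    Sf (cv α g) N β = ∑ d ∈ Icc 1 D, α d * ∑ k ∈ Icc 1 (N / d), g k * ee (k * (d * β)) := by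
  unfold Sf cv
  have h1 : ∑ l ∈ Icc 1 N, (∑ d ∈ l.divisors, α d * g (l / d)) * ee (l * β) =
      ∑ l ∈ Icc 1 N, ∑ d ∈ l.divisors, (fun d k : ℕ => α d * (g k * ee (k * (d * β)))) d (l / d) := by
    refine sum_congr rfl fun l hl => ?_
    rw [sum_mul]
    refine sum_congr rfl fun d hd => ?_
    rw [Nat.mem_divisors] at hd
    dsimp only
    have h2 : ((l / d : ℕ) : ℝ) * (d * β) = l * β := by
      have h3 : ((l / d : ℕ) : ℝ) * d = l := by
        exact_mod_cast Nat.div_mul_cancel hd.1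
      rw [← mul_assoc, h3]
    rw [h2]
    ring
  rw [h1, sum_div_swap N (fun d k : ℕ => α d * (g k * ee (k * (d * β))))]
  symm
  refine (sum_subset (Icc_subset_Icc_right hDN) fun d hd hd' => ?_).trans (sum_congr rfl fun d _ => ?_)
  · have : α d = 0 := by
      by_contra h
      exact hd' (mem_Icc.2 (hα d h))
    rw [this, zero_mul]
  · rw [mul_sum]

lemma abel_mono (z : ℕ → ℂ) {w : ℕ → ℝ} (hw : Monotone w) (hw0 : ∀ n, 0 ≤ w n) (K : ℕ) {B : ℝ}
    (hB : ∀ u, u ≤ K → ‖∑ k ∈ Ico (u + 1) (K + 1), z k‖ ≤ B) (V : ℕ) (hV : V ≤ K) :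
    ‖∑ k ∈ Ico (V + 1) (K + 1), (w k : ℂ) * z k‖ ≤ w K * B := by
  have hB0 : 0 ≤ B := (norm_nonneg _).trans (hB K le_rfl)
  rcases Nat.eq_or_lt_of_le hV with rfl | hVK
  · simp only [Ico_self, sum_empty, norm_zero]
    exact mul_nonneg (hw0 _) hB0
  have key : ∀ n : ℕ, ∀ u : ℕ, u + 1 + n = K →
      ‖∑ k ∈ Ico (u + 1) (K + 1), (w k : ℂ) * z k - w (u + 1) * ∑ k ∈ Ico (u + 1) (K + 1), z k‖ ≤
        (w K - w (u + 1)) * B := by
    intro n
    induction n with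
    | zero =>
      intro u hu
      have : u + 1 = K := by omega
      subst this
      simp [Nat.Ico_succ_singleton]
    | succ n ih =>
      intro u hu
      have h1 := ih (u + 1) (by omega)
      rw [sum_eq_sum_Ico_succ_bot (by omega : u + 1 < K + 1) (fun k => (w k : ℂ) * z k),
        sum_eq_sum_Ico_succ_bot (by omega : u + 1 < K + 1) (fun k => z k)]
      have e : (w (u + 1) : ℂ) * z (u + 1) + ∑ k ∈ Ico (u + 1 + 1) (K + 1), (w k : ℂ) * z k -
          w (u + 1) * (z (u + 1) + ∑ k ∈ Ico (u + 1 + 1) (K + 1), z k) =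
          (∑ k ∈ Ico (u + 1 + 1) (K + 1), (w k : ℂ) * z k -
            w (u + 1 + 1) * ∑ k ∈ Ico (u + 1 + 1) (K + 1), z k) +
          ((w (u + 1 + 1) - w (u + 1) : ℝ) : ℂ) * ∑ k ∈ Ico (u + 1 + 1) (K + 1), z k := by
        push_cast
        ring
      rw [e]
      refine (norm_add_le _ _).trans ?_
      have h2 : 0 ≤ w (u + 1 + 1) - w (u + 1) := sub_nonneg.2 (hw (by omega))
      rw [norm_mul, Complex.norm_real, Real.norm_of_nonneg h2]
      have h3 := mul_le_mul_of_nonneg_left (hB (u + 1) (by omega)) h2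
      calc _ ≤ (w K - w (u + 1 + 1)) * B + (w (u + 1 + 1) - w (u + 1)) * B := add_le_add h1 h3
        _ = _ := by ring
  have h1 := key (K - (V + 1)) V (by omega)
  have h2 := hB V hV
  calc ‖∑ k ∈ Ico (V + 1) (K + 1), (w k : ℂ) * z k‖ =
      ‖(∑ k ∈ Ico (V + 1) (K + 1), (w k : ℂ) * z k - w (V + 1) * ∑ k ∈ Ico (V + 1) (K + 1), z k) +
        w (V + 1) * ∑ k ∈ Ico (V + 1) (K + 1), z k‖ := by congr 1; ring
    _ ≤ (w K - w (V + 1)) * B + w (V + 1) * B := by
        refine (norm_add_le _ _).trans (add_le_add h1 ?_)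
        rw [norm_mul, Complex.norm_real, Real.norm_of_nonneg (hw0 _)]
        exact mul_le_mul_of_nonneg_left h2 (hw0 _)
    _ = _ := by ring

/-- the inner sum -/
lemma inner {w : ℕ → ℝ} (hw : Monotone w) (hw0 : ∀ n, 0 ≤ w n) {N d V : ℕ} (hd : 1 ≤ d) (hwN : w N ≤ 1) (x : ℝ) :
    ‖∑ k ∈ Icc 1 (N / d), (if V < k then (w k : ℂ) else 0) * ee (k * x)‖ ≤ KK ((N : ℝ) / d) x := by
  obtain ⟨K, hK⟩ : ∃ K, K = N / d := ⟨_, rfl⟩
  have hM0 : (0 : ℝ) ≤ (N : ℝ) / d := by positivity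
  have hKM : (K : ℝ) ≤ (N : ℝ) / d := by
    rw [hK]
    exact Nat.cast_div_le
  rw [← hK]
  by_cases hV : V ≤ K
  · have h1 : ∑ k ∈ Icc 1 K, (if V < k then (w k : ℂ) else 0) * ee (k * x) =
        ∑ k ∈ Ico (V + 1) (K + 1), (w k : ℂ) * ee (k * x) := by
      rw [← Ico_succ_right_eq_Icc]
      symm
      have h0 : ∑ k ∈ Ico (V + 1) (K + 1), (w k : ℂ) * ee (k * x) =
          ∑ k ∈ Ico (V + 1) (K + 1), (if V < k then (w k : ℂ) else 0) * ee (k * x) := by
        refine sum_congr rfl fun k hk => ?_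
        rw [mem_Ico] at hk
        rw [if_pos (by omega)]
      rw [h0]
      refine sum_subset (fun k hk => ?_) fun k hk hk' => ?_
      · rw [mem_Ico] at hk ⊢
        simp only [Order.succ_eq_add_one]
        omega
      · rw [mem_Ico] at hk hk'
        simp only [Order.succ_eq_add_one] at hk
        rw [if_neg (by omega), zero_mul]
    rw [h1]
    have h2 := abel_mono (fun k => ee (k * x)) hw hw0 K (B := KK ((N : ℝ) / d) x) (fun u hu => by
      apply geo_bound (u + 1) (K + 1) (by omega)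
      push_cast
      have : (0 : ℝ) ≤ u := Nat.cast_nonneg _
      linarith) V hV
    refine h2.trans ?_
    have h3 : w K ≤ 1 := (hw (by rw [hK]; exact Nat.div_le_self N d)).trans hwN
    calc w K * KK ((N : ℝ) / d) x ≤ 1 * KK ((N : ℝ) / d) x := mul_le_mul_of_nonneg_right h3 (KK_nonneg hM0 x)
      _ = _ := one_mul _
  · have h1 : ∑ k ∈ Icc 1 K, (if V < k then (w k : ℂ) else 0) * ee (k * x) = 0 := by
      apply sum_eq_zero
      intro k hk
      rw [mem_Icc] at hk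
      rw [if_neg (by omega), zero_mul]
    rw [h1, norm_zero]
    exact KK_nonneg hM0 x

/-- distance to the integers, lower bound for `dd` -/
lemma dd_low {x δ : ℝ} (h : ∀ k : ℤ, δ ≤ |x - k|) : 4 * δ ≤ dd x := by
  have e1 : dd x = dd (Int.fract x) := by
    conv_lhs => rw [← Int.fract_add_floor x]
    exact dd_add_int _ _
  rw [e1]
  have h1 := dd_ge (Int.fract_nonneg x) (Int.fract_lt_one x).le
  refine le_trans ?_ h1
  have h2 := h ⌊x⌋
  have h3 := h (⌊x⌋ + 1)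
  push_cast at h3
  have h4 := Int.self_sub_floor x
  have h5 := Int.fract_nonneg x
  have h6 := Int.fract_lt_one x
  rw [h4, abs_of_nonneg h5] at h2
  have h7 : x - (⌊x⌋ + 1) = -(1 - Int.fract x) := by rw [← h4]; ring
  rw [h7, abs_neg, abs_of_nonneg (by linarith)] at h3
  have := le_min h2 h3
  linarith

/-- the terms which are not divisible by `q` -/
lemma nondiv {D q d : ℕ} {a : ℤ} {θ M : ℝ} (hD : 1 ≤ D) (hq : 1 ≤ q) (hcop : IsCoprime a (q : ℤ))
    (hθ : |θ| * (4 * D * q) ≤ 1) (hM : 0 ≤ M) (hdD : d ≤ D) (hqd : ¬ q ∣ d) :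
    KK M (d * ((a : ℝ) / q + θ)) ≤ 4 / 3 * KK q (0 + d * ((a : ℝ) / q + θ)) := by
  have hq0 : (0 : ℝ) < q := by exact_mod_cast hq
  have hD0 : (0 : ℝ) < D := by exact_mod_cast hD
  have hdD' : (d : ℝ) ≤ D := by exact_mod_cast hdD
  have hd0 : (0 : ℝ) ≤ d := Nat.cast_nonneg _
  have h1 : ∀ k : ℤ, 3 / (4 * q : ℝ) ≤ |(d : ℝ) * ((a : ℝ) / q + θ) - k| := by
    intro k
    have h2 : (d : ℤ) * a - k * q ≠ 0 := by
      intro h0
      apply hqd
      have h3 : (q : ℤ) ∣ d * a := ⟨k, by linarith [mul_comm (q : ℤ) k]⟩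
      exact_mod_cast hcop.symm.dvd_of_dvd_mul_right h3
    have h3 : (1 : ℝ) ≤ |(d : ℝ) * a - k * q| := by
      have := Int.one_le_abs h2
      exact_mod_cast this
    have h4 : (d : ℝ) * ((a : ℝ) / q + θ) - k = ((d : ℝ) * a - k * q) / q + d * θ := by
      field_simp
      ring
    rw [h4]
    have h5 : 1 / (q : ℝ) ≤ |((d : ℝ) * a - k * q) / q| := by
      rw [abs_div, abs_of_pos hq0]
      exact div_le_div_of_nonneg_right h3 hq0.le
    have h6 : |(d : ℝ) * θ| ≤ 1 / (4 * q) := by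
      rw [abs_mul, abs_of_nonneg hd0, le_div_iff₀ (by positivity)]
      calc (d : ℝ) * |θ| * (4 * q) ≤ D * |θ| * (4 * q) := by gcongr
        _ = |θ| * (4 * D * q) := by ring
        _ ≤ 1 := hθ
    have h7 := abs_sub_abs_le_abs_sub (((d : ℝ) * a - k * q) / q) (-(d * θ))
    rw [abs_neg, sub_neg_eq_add] at h7
    have h8 : (3 : ℝ) / (4 * q) = 1 / q - 1 / (4 * q) := by
      field_simp
      norm_num
    linarith
  have h2 := dd_low h1
  rw [zero_add]
  obtain ⟨δ, hδ⟩ : ∃ δ, δ = dd ((d : ℝ) * ((a : ℝ) / q + θ)) := ⟨_, rfl⟩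
  have hδ1 : 3 / (q : ℝ) ≤ δ := by
    rw [hδ]
    have : 4 * (3 / (4 * (q : ℝ))) = 3 / q := by
      field_simp
    linarith
  have hδ0 : 0 < δ := lt_of_lt_of_le (by positivity) hδ1
  refine (KK_le' hM hδ0 (le_of_eq hδ)).trans ?_
  unfold KK
  rw [← hδ]
  have h3 : 3 ≤ δ * q := by
    rw [div_le_iff₀ hq0] at hδ1
    exact hδ1
  have e : 4 / 3 * (3 * (q : ℝ) / (1 + q * δ)) = 4 * q / (1 + q * δ) := by ring
  rw [e, div_le_div_iff₀ hδ0 (by positivity)]
  nlinarith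

/-- the terms which are divisible by `q` -/
lemma isdiv {N D q d : ℕ} {a : ℤ} {θ : ℝ} (hD : 1 ≤ D) (hq : 1 ≤ q)
    (hθ : |θ| * (4 * D * q) ≤ 1) (hdD : d ≤ D) (hd : 1 ≤ d) (hqd : q ∣ d) :
    KK ((N : ℝ) / d) (d * ((a : ℝ) / q + θ)) ≤ 3 * (N / (1 + N * |θ|)) * (1 / d) := by
  have hq0 : (0 : ℝ) < q := by exact_mod_cast hq
  have hq1 : (1 : ℝ) ≤ q := by exact_mod_cast hq
  have hD0 : (0 : ℝ) < D := by exact_mod_cast hD
  have hdD' : (d : ℝ) ≤ D := by exact_mod_cast hdD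
  have hd0 : (0 : ℝ) < d := by exact_mod_cast hd
  obtain ⟨j, hj⟩ := hqd
  have e1 : (d : ℝ) * ((a : ℝ) / q + θ) = d * θ + ((j * a : ℤ) : ℝ) := by
    rw [hj]
    push_cast
    field_simp
    ring
  have h1 : |(d : ℝ) * θ| ≤ 1 / 4 := by
    rw [abs_mul, abs_of_pos hd0, le_div_iff₀ (by positivity)]
    calc (d : ℝ) * |θ| * 4 ≤ D * |θ| * (4 * q) := by
          have : 0 ≤ (D : ℝ) * |θ| := by positivity
          have h3 : (d : ℝ) * |θ| ≤ D * |θ| := mul_le_mul_of_nonneg_right hdD' (abs_nonneg _)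
          nlinarith
      _ = |θ| * (4 * D * q) := by ring
      _ ≤ 1 := hθ
  have h2 : 4 * |(d : ℝ) * θ| ≤ dd (d * ((a : ℝ) / q + θ)) := by
    rw [e1, dd_add_int]
    have h3 : ∀ x : ℝ, 0 ≤ x → x ≤ 1 / 4 → 4 * x ≤ dd x := by
      intro x hx hx4
      have := dd_ge hx (by linarith)
      rw [min_eq_left (by linarith)] at this
      exact this
    rcases abs_cases ((d : ℝ) * θ) with ⟨h4, h5⟩ | ⟨h4, h5⟩
    · rw [h4]
      exact h3 _ h5 (by rw [← h4]; exact h1)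
    · rw [h4, ← dd_neg]
      exact h3 _ (by linarith) (by rw [← h4]; exact h1)
  unfold KK
  have hN0 : (0 : ℝ) ≤ N := Nat.cast_nonneg _
  have h3 : 1 + (N : ℝ) * |θ| ≤ 1 + (N : ℝ) / d * dd (d * ((a : ℝ) / q + θ)) := by
    have h4 : (N : ℝ) * |θ| ≤ (N : ℝ) / d * (4 * |(d : ℝ) * θ|) := by
      rw [abs_mul, abs_of_pos hd0]
      have : (N : ℝ) / d * (4 * (d * |θ|)) = 4 * (N * |θ|) := by
        field_simp
      rw [this]
      have : 0 ≤ (N : ℝ) * |θ| := by positivity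
      linarith
    have h5 : (N : ℝ) / d * (4 * |(d : ℝ) * θ|) ≤ (N : ℝ) / d * dd (d * ((a : ℝ) / q + θ)) :=
      mul_le_mul_of_nonneg_left h2 (by positivity)
    linarith
  calc 3 * ((N : ℝ) / d) / (1 + (N : ℝ) / d * dd (d * ((a : ℝ) / q + θ))) ≤ 3 * ((N : ℝ) / d) / (1 + N * |θ|) := by
        apply div_le_div_of_nonneg_left (by positivity) (by positivity) h3
    _ = _ := by
        field_simp

/-- **T1a** -/
theorem t1a : S_T1a := by
  refine ⟨1000, by norm_num, ?_⟩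
  intro N D V q a θ α w hN hD hDN hq hq4 hcop hθ hα hα1 hw hw0 hwN
  have hq0 : (0 : ℝ) < q := by exact_mod_cast hq
  have hD0 : (0 : ℝ) < D := by exact_mod_cast hD
  have hD1 : (1 : ℝ) ≤ D := by exact_mod_cast hD
  have hN2 : (2 : ℝ) ≤ N := by exact_mod_cast hN
  have hDN' : (D : ℝ) ≤ N := by exact_mod_cast hDN
  have hq4' : (q : ℝ) ≤ 4 * D := by exact_mod_cast hq4
  obtain ⟨L, hL⟩ : ∃ L, L = Real.log (N : ℝ) := ⟨_, rfl⟩
  have hL2 : 0.69 ≤ L := by
    rw [hL]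
    have := Real.log_two_gt_d9
    have h2 := Real.log_le_log (by norm_num) hN2
    linarith
  obtain ⟨β, hβ⟩ : ∃ β, β = (a : ℝ) / q + θ := ⟨_, rfl⟩
  rw [← hL, ← hβ, Sf_cv α _ hDN hα]
  have h1 : ‖∑ d ∈ Icc 1 D, α d * ∑ k ∈ Icc 1 (N / d), (if V < k then (w k : ℂ) else 0) * ee (k * (d * β))‖ ≤
      ∑ d ∈ Icc 1 D, KK ((N : ℝ) / d) (d * β) := by
    refine (norm_sum_le _ _).trans (sum_le_sum fun d hd => ?_)
    rw [mem_Icc] at hd
    rw [norm_mul]
    have h2 := inner hw hw0 (V := V) hd.1 hwN (d * β)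
    have h3 : 0 ≤ KK ((N : ℝ) / d) (d * β) := KK_nonneg (by positivity) _
    calc ‖α d‖ * ‖∑ k ∈ Icc 1 (N / d), (if V < k then (w k : ℂ) else 0) * ee (k * (d * β))‖ ≤
        1 * KK ((N : ℝ) / d) (d * β) := mul_le_mul (hα1 d) h2 (norm_nonneg _) zero_le_one
      _ = _ := one_mul _
  refine h1.trans ?_
  rw [← sum_filter_add_sum_filter_not (Icc 1 D) (fun d => q ∣ d)]
  -- divisible terms
  have hA : ∑ d ∈ (Icc 1 D).filter (fun d => q ∣ d), KK ((N : ℝ) / d) (d * β) ≤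
      3 * (N / (1 + N * |θ|)) * (1 / q * (1 + Real.log (D / q + 1 : ℕ))) := by
    have h2 : ∑ d ∈ (Icc 1 D).filter (fun d => q ∣ d), KK ((N : ℝ) / d) (d * β) ≤
        ∑ d ∈ (Icc 1 D).filter (fun d => q ∣ d), 3 * (N / (1 + N * |θ|)) * (1 / d) := by
      apply sum_le_sum
      intro d hd
      rw [mem_filter, mem_Icc] at hd
      rw [hβ]
      exact isdiv hD hq hθ hd.1.2 hd.1.1 hd.2
    refine h2.trans ?_
    rw [← mul_sum]
    apply mul_le_mul_of_nonneg_left _ (by positivity)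
    have h3 : ∑ d ∈ (Icc 1 D).filter (fun d => q ∣ d), (1 / (d : ℝ)) ≤
        ∑ j ∈ range (D / q + 1), 1 / (q : ℝ) * (1 / (j : ℝ)) := by
      have h4 : (Icc 1 D).filter (fun d => q ∣ d) ⊆ (range (D / q + 1)).image (fun j => q * j) := by
        intro d hd
        rw [mem_filter, mem_Icc] at hd
        obtain ⟨j, hj⟩ := hd.2
        rw [mem_image]
        refine ⟨j, ?_, hj.symm⟩
        rw [mem_range, Nat.lt_succ_iff, Nat.le_div_iff_mul_le (by omega)]
        have := hd.1.2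
        rw [hj, mul_comm] at this
        exact this
      refine (sum_le_sum_of_subset_of_nonneg h4 fun d _ _ => by positivity).trans ?_
      rw [sum_image (by
        intro j _ j' _ hjj
        exact Nat.eq_of_mul_eq_mul_left (by omega) hjj)]
      refine le_of_eq (sum_congr rfl fun j _ => ?_)
      push_cast
      rw [one_div_mul_one_div]
    refine h3.trans ?_
    rw [← mul_sum]
    exact mul_le_mul_of_nonneg_left (sum_inv_range _) (by positivity)
  have hlogD : 1 + Real.log (D / q + 1 : ℕ) ≤ 4 * L := by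
    have h2 : ((D / q + 1 : ℕ) : ℝ) ≤ 2 * N := by
      have : D / q ≤ D := Nat.div_le_self _ _
      have h3 : ((D / q : ℕ) : ℝ) ≤ D := by exact_mod_cast this
      push_cast
      linarith
    have h3 := Real.log_le_log (by positivity) h2
    rw [Real.log_mul (by norm_num) (by positivity), ← hL] at h3
    have := Real.log_two_lt_d9
    linarith
  -- the others
  have hB : ∑ d ∈ (Icc 1 D).filter (fun d => ¬ q ∣ d), KK ((N : ℝ) / d) (d * β) ≤
      4 / 3 * ((((D + 1 : ℕ) : ℝ) / q + 1) * (39 * q + 3 * q * (1 + Real.log q))) := by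
    have h2 : ∑ d ∈ (Icc 1 D).filter (fun d => ¬ q ∣ d), KK ((N : ℝ) / d) (d * β) ≤
        ∑ d ∈ (Icc 1 D).filter (fun d => ¬ q ∣ d), 4 / 3 * KK q (0 + d * β) := by
      apply sum_le_sum
      intro d hd
      rw [mem_filter, mem_Icc] at hd
      rw [hβ]
      exact nondiv hD hq hcop hθ (by positivity) hd.1.2 hd.2
    refine h2.trans ?_
    rw [← mul_sum]
    apply mul_le_mul_of_nonneg_left _ (by norm_num)
    have h3 := vino hq hcop (α := β) (by
      rw [hβ, add_sub_cancel_left, le_div_iff₀ (by positivity)]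
      calc |θ| * (q : ℝ) ^ 2 = |θ| * (q * q) := by ring
        _ ≤ |θ| * (4 * D * q) := by
            apply mul_le_mul_of_nonneg_left _ (abs_nonneg _)
            exact mul_le_mul_of_nonneg_right hq4' hq0.le
        _ ≤ 1 := hθ) (M := q) hq0.le 0 (D + 1)
    refine le_trans ?_ h3
    apply sum_le_sum_of_subset_of_nonneg
    · intro d hd
      rw [mem_filter, mem_Icc] at hd
      rw [mem_range]
      omega
    · intro d _ _
      exact KK_nonneg hq0.le _
  have hlogq : 1 + Real.log q ≤ 5 * L := by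
    have h2 : (q : ℝ) ≤ 4 * N := by linarith
    have h3 := Real.log_le_log hq0 h2
    rw [Real.log_mul (by norm_num) (by positivity), ← hL, show (4 : ℝ) = 2 ^ 2 by norm_num, Real.log_pow] at h3
    have := Real.log_two_lt_d9
    push_cast at h3
    linarith
  have hA' : 3 * (N / (1 + N * |θ|)) * (1 / q * (1 + Real.log (D / q + 1 : ℕ))) ≤
      12 * L * (N / (q * (1 + N * |θ|))) := by
    calc 3 * (N / (1 + N * |θ|)) * (1 / q * (1 + Real.log (D / q + 1 : ℕ))) ≤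
        3 * (N / (1 + N * |θ|)) * (1 / q * (4 * L)) := by gcongr
      _ = _ := by
          field_simp
          norm_num
  have hB' : 4 / 3 * ((((D + 1 : ℕ) : ℝ) / q + 1) * (39 * q + 3 * q * (1 + Real.log q))) ≤ 1000 * L * D := by
    have h2 : 39 * (q : ℝ) + 3 * q * (1 + Real.log q) ≤ 72 * q * L := by
      have : 39 * (q : ℝ) ≤ 57 * (q * L) := by nlinarith
      have : (q : ℝ) * (1 + Real.log q) ≤ q * (5 * L) := mul_le_mul_of_nonneg_left hlogq hq0.le
      linarith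
    have h3 : (0 : ℝ) ≤ ((D + 1 : ℕ) : ℝ) / q + 1 := by positivity
    calc 4 / 3 * ((((D + 1 : ℕ) : ℝ) / q + 1) * (39 * q + 3 * q * (1 + Real.log q))) ≤
        4 / 3 * ((((D + 1 : ℕ) : ℝ) / q + 1) * (72 * q * L)) := by gcongr
      _ = 96 * L * ((D + 1 : ℝ) + q) := by
          push_cast
          field_simp
          ring
      _ ≤ 96 * L * (6 * D) := by
          apply mul_le_mul_of_nonneg_left _ (by positivity)
          linarith
      _ ≤ 1000 * L * D := by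
          have : 0 ≤ L * D := by positivity
          nlinarith
  have hX : 0 ≤ L * (N / (q * (1 + N * |θ|))) := by positivity
  calc _ ≤ 12 * L * (N / (q * (1 + N * |θ|))) + 1000 * L * D := add_le_add (hA.trans hA') (hB.trans hB')
    _ ≤ 1000 * L * (N / (q * (1 + N * |θ|)) + D) := by nlinarith

end Pool.Agent.V5helper51.MW
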